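import Pool.Agent.H244.RC.Stm

set_option autoImplicit false
set_option maxHeartbeats 4000000

namespace Pool.Agent.H244.RC

open Set Filter Topology MeasureTheory
open Pool.Agent.Helper6K9.ES (Q E Per Sm dX dT Small)
open Pool.Agent.Helper6K9.E3 (TP)
open Pool.Agent.GR.Flow (IsFlowOf)
open scoped NNReal ENNReal ContDiff

namespace AVGL

lemma tp_smooth {S : Set (Fin (1 + 1) → ℤ)} {F : E 1 → ℝ} (h : TP S F) : ContDiff ℝ ∞ F := by
  obtain ⟨s, c, d, -, hcd, hF⟩ := h
  have : F = fun p : E 1 => ∑ k ∈ s, (c k p.2 * Real.cos (2 * Real.pi * ∑ i, (k i : ℝ) * p.1 i) +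
      d k p.2 * Real.sin (2 * Real.pi * ∑ i, (k i : ℝ) * p.1 i)) := funext hF
  rw [this]
  refine ContDiff.sum fun k _ => ?_
  have h1 : ContDiff ℝ ∞ (fun p : E 1 => 2 * Real.pi * ∑ i, (k i : ℝ) * p.1 i) := by
    refine contDiff_const.mul (ContDiff.sum fun i _ => contDiff_const.mul ?_)
    exact (contDiff_apply ℝ ℝ i).comp contDiff_fst
  exact (((hcd k).1.comp contDiff_snd).mul (Real.contDiff_cos.comp h1)).add
    (((hcd k).2.1.comp contDiff_snd).mul (Real.contDiff_sin.comp h1))

lemma norm_e : ‖((0 : P2), (1 : ℝ))‖ ≤ 1 := by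
  rw [Prod.norm_def]; simp

lemma dT_close {G f : E 1 → ℝ} (hG : Differentiable ℝ G) (hf : Differentiable ℝ f) {e : ℝ}
    (h : Small (fun p => G p - f p) e) (p : E 1) : |dT G p - dT f p| ≤ e := by
  have h1 := (h p).2.1
  rw [fderiv_fun_sub (hG p) (hf p)] at h1
  have h2 := ContinuousLinearMap.le_opNorm (fderiv ℝ G p - fderiv ℝ f p) ((0 : P2), (1 : ℝ))
  rw [sub_apply, Real.norm_eq_abs] at h2
  unfold dT
  refine h2.trans ?_
  have := mul_le_mul h1 norm_e (norm_nonneg _) ((norm_nonneg _).trans h1)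
  rwa [mul_one] at this

lemma dT_cont {f : E 1 → ℝ} (hf : ContDiff ℝ 1 f) : Continuous (dT f) := by
  have h1 : Continuous (fderiv ℝ f) := hf.continuous_fderiv (by norm_num)
  exact h1.clm_apply continuous_const

lemma bounds (f : E 1 → ℝ) (hf : ContDiff ℝ 2 f) (hp : Per f) :
    ∃ M : ℝ, 1 ≤ M ∧ (∀ p, |f p| ≤ M) ∧ ∀ p, |dT f p| ≤ M := by
  obtain ⟨C, hC⟩ := Pool.Agent.Helper6K9.ES.OdeL.bounded_of_per f hf.continuous hp
  obtain ⟨D, hD⟩ := Pool.Agent.Helper6K9.ES.OdeL.bounded_of_per (dT f)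
    (dT_cont (hf.of_le (by norm_num))) (fun p k l => by
      unfold dT
      rw [Pool.Agent.Helper6K9.ES.OdeL.fderiv_per f hp p k l])
  exact ⟨max 1 (max C D), le_max_left _ _,
    fun p => (hC p).trans ((le_max_left _ _).trans (le_max_right _ _)),
    fun p => (hD p).trans ((le_max_right _ _).trans (le_max_right _ _))⟩

lemma bb_cont (A : Matrix (Fin (1 + 1)) (Fin (1 + 1)) ℝ) (f : E 1 → ℝ) (hf : ContDiff ℝ 2 f) :
    Continuous (bb A f) := by
  have h1 : Continuous (fderiv ℝ f) := hf.continuous_fderiv (by norm_num)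
  refine continuous_pi fun i => ?_
  refine continuous_finsetSum _ fun k _ => continuous_const.mul ?_
  exact h1.clm_apply continuous_const

lemma bb_bdd (A : Matrix (Fin (1 + 1)) (Fin (1 + 1)) ℝ) (f : E 1 → ℝ) (hf : ContDiff ℝ 2 f)
    (hp : Per f) : ∃ B : ℝ, ∀ p, ‖bb A f p‖ ≤ B := by
  refine Pool.Agent.Helper6K9.ES.OdeL.bounded_of_per (bb A f) (bb_cont A f hf) (fun p k l => ?_)
  funext i
  unfold bb dX
  rw [Pool.Agent.Helper6K9.ES.OdeL.fderiv_per f hp p k l]

variable {A : Matrix (Fin (1 + 1)) (Fin (1 + 1)) ℝ} {f : E 1 → ℝ} {X : C(E5, E5)} {K : ℝ≥0}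
  {g : ℝ → E5 → E5}

lemma g_cont (hg : Fl A f X K g) : Continuous (fun p : ℝ × E5 => g p.1 p.2) := by
  have h1 : ContDiff ℝ ((1 : ℕ) : WithTop ℕ∞) X := by simpa using hg.c1
  exact (Pool.Agent.GR.Flow.contDiff_flow one_ne_zero h1 hg.lip hg.flow).continuous

lemma g_der (hg : Fl A f X K g) (z : E5) (r : ℝ) :
    HasDerivAt (fun t => g t z)
      ((g r z).2.1, bb A f ((g r z).1, (g r z).2.2), (1 : ℝ)) r := by
  have h := hg.flow.deriv z r
  rw [hg.eq] at h
  exact h

lemma g_time (hg : Fl A f X K g) (z : E5) (r : ℝ) : (g r z).2.2 = z.2.2 + r := by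
  have h1 : ∀ r, HasDerivAt (fun t => (g t z).2.2 - t) 0 r := by
    intro r
    have h2 : HasDerivAt (fun t => (g t z).2.2) 1 r := (g_der hg z r).snd.snd
    have := h2.sub (hasDerivAt_id r)
    rwa [sub_self] at this
  have h3 := is_const_of_deriv_eq_zero (fun r => (h1 r).differentiableAt) (fun r => (h1 r).deriv) r 0
  simp only [sub_zero] at h3
  rw [hg.flow.zero] at h3
  linarith

end AVGL

open AVGL in
theorem p_AVG (hGOOD : S_GOOD) (hSTRIP : S_STRIP) (hBALL : S_BALL) (hQUAD : S_QUAD)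
    (hENER : S_ENER) (hSUB : S_SUB) : S_AVG := by
  intro A f X K g hg ε hε N₀
  obtain ⟨M, hM1, hMf, hMd⟩ := bounds f hg.smooth hg.per
  obtain ⟨B, hB⟩ := bb_bdd A f hg.smooth hg.per
  obtain ⟨a, ha, hquad⟩ := hQUAD A hg.pos
  obtain ⟨η, hηd⟩ : ∃ η : ℝ, η = ε * a / 32 := ⟨_, rfl⟩
  have hη : 0 < η := by rw [hηd]; positivity
  obtain ⟨h, hh, hhf⟩ := Pool.Agent.Helper6K9.ES.mol 1 f (η / 2) (by positivity) hg.smooth hg.per
  obtain ⟨N, F, hF, hFh⟩ := Pool.Agent.Helper41K9.E3T.tri 1 h (η / 2) (by positivity) hh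
  obtain ⟨Λ, hΛ⟩ := hGOOD N F B η hη hF
  obtain ⟨C, hC0, hC⟩ := hSTRIP N Λ
  obtain ⟨hDm, hball⟩ := hBALL
  obtain ⟨hHm, -, -⟩ := hSUB A f hg.pos hg.smooth hg.per
  have hFs := tp_smooth hF
  have hFd : Differentiable ℝ F := hFs.differentiable (by simp)
  have hhd : Differentiable ℝ h := hh.1.differentiable (by simp)
  have hfd : Differentiable ℝ f := hg.smooth.differentiable (by norm_num)
  have hclose : ∀ p, |dT F p - dT f p| ≤ η := by
    intro p
    have h1 := dT_close hFd hhd hFh p
    have h2 := dT_close hhd hfd hhf p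
    calc |dT F p - dT f p| = |(dT F p - dT h p) + (dT h p - dT f p)| := by congr 1; ring
      _ ≤ _ := abs_add_le _ _
      _ ≤ η := by linarith
  have hFc : Continuous (dT F) := dT_cont (hFs.of_le (by simp))
  have hfc : Continuous (dT f) := dT_cont (hg.smooth.of_le (by norm_num))
  have hgc := g_cont hg
  have hpath : ∀ z : E5, Continuous (fun r : ℝ => (((g r z).1, (g r z).2.2) : E 1)) := by
    intro z
    have h1 : Continuous (fun r : ℝ => g r z) := hgc.comp (continuous_id.prodMk continuous_const)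
    exact h1.fst.prodMk h1.snd.snd
  -- the two bounds
  have hall : ∀ z, |HH A f (g 1 z) - HH A f z| ≤ M := by
    intro z
    rw [hENER A f X K g hg z, abs_neg]
    have := intervalIntegral.norm_integral_le_of_norm_le_const (a := (0 : ℝ)) (b := 1)
      (f := fun r => dT f ((g r z).1, (g r z).2.2)) (C := M) (fun r _ => hMd _)
    simpa using this
  have hnon : ∀ z : E5, (∀ k : Fin (1 + 1) → ℤ, k ≠ 0 → (∀ i, |k i| ≤ N) →
      Λ ≤ |∑ i, (k i : ℝ) * z.2.1 i|) → |HH A f (g 1 z) - HH A f z| ≤ 2 * η := by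
    intro z hz
    rw [hENER A f X K g hg z, abs_neg]
    have h1 := hΛ (fun r => (g r z).1) (fun r => (g r z).2.1)
      (fun r => bb A f ((g r z).1, (g r z).2.2)) z.2.2
      (fun r => (g_der hg z r).fst) (fun r => (g_der hg z r).snd.fst)
      ((bb_cont A f hg.smooth).comp (hpath z)) (fun r => hB _)
      (by
        intro k hk hkN
        have := hz k hk hkN
        simp only [hg.flow.zero]
        exact this)
    have e1 : ∫ r in (0 : ℝ)..1, dT f ((g r z).1, (g r z).2.2) =
        (∫ r in (0 : ℝ)..1, dT F ((g r z).1, z.2.2 + r)) -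
        ∫ r in (0 : ℝ)..1, (dT F ((g r z).1, (g r z).2.2) - dT f ((g r z).1, (g r z).2.2)) := by
      have i1 : IntervalIntegrable (fun r => dT F ((g r z).1, (g r z).2.2)) volume 0 1 :=
        (hFc.comp (hpath z)).intervalIntegrable _ _
      have i2 : IntervalIntegrable (fun r => dT f ((g r z).1, (g r z).2.2)) volume 0 1 :=
        (hfc.comp (hpath z)).intervalIntegrable _ _
      rw [intervalIntegral.integral_sub i1 i2]
      have e2 : (fun r => dT F ((g r z).1, z.2.2 + r)) = fun r => dT F ((g r z).1, (g r z).2.2) := by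
        funext r
        rw [g_time hg z r]
      rw [e2]
      ring
    have h2 := intervalIntegral.norm_integral_le_of_norm_le_const (a := (0 : ℝ)) (b := 1)
      (f := fun r => dT F ((g r z).1, (g r z).2.2) - dT f ((g r z).1, (g r z).2.2)) (C := η)
      (fun r _ => hclose _)
    rw [sub_zero, abs_one, mul_one, Real.norm_eq_abs] at h2
    rw [e1]
    calc _ ≤ _ := abs_sub _ _
      _ ≤ η + η := add_le_add h1 h2
      _ = 2 * η := by ring
  -- the radius
  obtain ⟨R, hR⟩ : ∃ R : ℝ, R = max 1 (max ((M * C + 2 * ε * M) / (ε * a / 2)) ((|N₀| + 2 * M) / a)) :=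
    ⟨_, rfl⟩
  have hR1 : 1 ≤ R := by rw [hR]; exact le_max_left _ _
  have hR2 : M * C + 2 * ε * M ≤ ε * a / 2 * R := by
    have : (M * C + 2 * ε * M) / (ε * a / 2) ≤ R := by
      rw [hR]; exact (le_max_left _ _).trans (le_max_right _ _)
    rw [div_le_iff₀ (by positivity)] at this
    linarith
  have hR3 : |N₀| + 2 * M ≤ a * R := by
    have : (|N₀| + 2 * M) / a ≤ R := by
      rw [hR]; exact (le_max_right _ _).trans (le_max_right _ _)
    rw [div_le_iff₀ ha] at this
    linarith
  have hRR : R ≤ R ^ 2 := by nlinarith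
  refine ⟨a * R ^ 2 - 2 * M, ?_, ?_⟩
  · have h1 : a * R ≤ a * R ^ 2 := mul_le_mul_of_nonneg_left hRR ha.le
    have h2 := le_abs_self N₀
    linarith
  · have hg1m : Measurable (g 1) := by
      have : Continuous (fun z => g 1 z) := hgc.comp (continuous_const.prodMk continuous_id)
      exact this.measurable
    have hSm : MeasurableSet {z | HH A f (g 1 z) < a * R ^ 2 - 2 * M} :=
      measurableSet_lt (hHm.comp hg1m) measurable_const
    set Bd : Set E5 := {z : E5 | z ∈ DD ∧ ∀ i, |z.2.1 i| ≤ R} with hBd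
    set St : Set E5 := {z : E5 | z ∈ DD ∧ (∀ i, |z.2.1 i| ≤ R) ∧ ∃ k : Fin (1 + 1) → ℤ, k ≠ 0 ∧
      (∀ i, |k i| ≤ N) ∧ |∑ i, (k i : ℝ) * z.2.1 i| < Λ} with hSt
    have hBdm : MeasurableSet Bd := by
      have e : Bd = DD ∩ ⋂ i : Fin (1 + 1), {z : E5 | |z.2.1 i| ≤ R} := by
        ext z
        simp [hBd]
        tauto
      rw [e]
      refine hDm.inter (MeasurableSet.iInter fun i => ?_)
      refine measurableSet_le ?_ measurable_const
      have : Continuous (fun z : E5 => |z.2.1 i|) := by fun_prop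
      exact this.measurable
    have hkey : ∀ z, z ∈ DD → HH A f (g 1 z) < a * R ^ 2 - 2 * M →
        ENNReal.ofReal |HH A f (g 1 z) - HH A f z| ≤
          Bd.indicator (fun _ => ENNReal.ofReal (2 * η)) z +
          St.indicator (fun _ => ENNReal.ofReal M) z := by
      intro z hzD hz
      have h1 := hall z
      have h2 : HH A f z < a * R ^ 2 - M := by
        rw [abs_le] at h1
        linarith [h1.1]
      have h3 : ∀ i, |z.2.1 i| ≤ R := by
        intro i
        have h4 := hquad z.2.1 i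
        have h5 := hMf (z.1, z.2.2)
        rw [abs_le] at h5
        unfold HH at h2
        have h6 : a * z.2.1 i ^ 2 ≤ a * R ^ 2 := by linarith [h5.2]
        have h7 : z.2.1 i ^ 2 ≤ R ^ 2 := le_of_mul_le_mul_left h6 ha
        exact abs_le_of_sq_le_sq h7 (by linarith)
      have hzB : z ∈ Bd := ⟨hzD, h3⟩
      by_cases hS : z ∈ St
      · rw [indicator_of_mem hS]
        exact (ENNReal.ofReal_le_ofReal h1).trans le_add_self
      · rw [indicator_of_mem hzB]
        refine (ENNReal.ofReal_le_ofReal (hnon z ?_)).trans le_self_add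
        intro k hk hkN
        by_contra hlt
        exact hS ⟨hzD, h3, k, hk, hkN, not_le.1 hlt⟩
    calc ∫⁻ z in {z | HH A f (g 1 z) < a * R ^ 2 - 2 * M},
          ENNReal.ofReal |HH A f (g 1 z) - HH A f z| ∂(volume.restrict DD)
        ≤ ∫⁻ z in {z | HH A f (g 1 z) < a * R ^ 2 - 2 * M},
          (Bd.indicator (fun _ => ENNReal.ofReal (2 * η)) z +
            St.indicator (fun _ => ENNReal.ofReal M) z) ∂(volume.restrict DD) := by
          refine lintegral_mono_ae ?_
          rw [Measure.restrict_restrict hSm]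
          filter_upwards [ae_restrict_mem (hSm.inter hDm)] with z hz
          exact hkey z hz.2 hz.1
      _ ≤ ∫⁻ z, (Bd.indicator (fun _ => ENNReal.ofReal (2 * η)) z +
            St.indicator (fun _ => ENNReal.ofReal M) z) ∂volume :=
          lintegral_mono' ((Measure.restrict_le_self).trans Measure.restrict_le_self) le_rfl
      _ = (∫⁻ z, Bd.indicator (fun _ => ENNReal.ofReal (2 * η)) z ∂volume) +
            ∫⁻ z, St.indicator (fun _ => ENNReal.ofReal M) z ∂volume :=
          lintegral_add_left (measurable_const.indicator hBdm) _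
      _ ≤ ENNReal.ofReal (2 * η) * volume Bd + ENNReal.ofReal M * volume St :=
          add_le_add (lintegral_indicator_const_le _ _) (lintegral_indicator_const_le _ _)
      _ ≤ ENNReal.ofReal (2 * η) * ENNReal.ofReal (4 * R ^ 2) +
            ENNReal.ofReal M * ENNReal.ofReal (C * R) := by
          gcongr
          · exact hball R (by linarith)
          · exact hC R hR1
      _ = ENNReal.ofReal (2 * η * (4 * R ^ 2) + M * (C * R)) := by
          have hM0 : 0 ≤ M := by linarith
          have hR0 : 0 ≤ R := by linarith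
          rw [← ENNReal.ofReal_mul (p := 2 * η) (by positivity),
            ← ENNReal.ofReal_mul (p := M) hM0,
            ← ENNReal.ofReal_add (by positivity) (by positivity)]
      _ ≤ ENNReal.ofReal (ε * (a * R ^ 2 - 2 * M)) := by
          apply ENNReal.ofReal_le_ofReal
          have h1 : (M * C + 2 * ε * M) * R ≤ ε * a / 2 * R ^ 2 := by nlinarith
          have h2 : 2 * ε * M ≤ 2 * ε * M * R := by
            have : 0 ≤ 2 * ε * M := by positivity
            nlinarith
          have h3 : 0 ≤ ε * a * R ^ 2 := by positivity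
          rw [hηd]
          nlinarith

end Pool.Agent.H244.RC
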