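import Pool.Agent.H244.RC.Stm

set_option autoImplicit false

namespace Pool.Agent.H244.RC

open Set Filter Topology MeasureTheory

namespace BALLL

lemma ball_eq (R : ℝ) : {z : E5 | z ∈ DD ∧ ∀ i, |z.2.1 i| ≤ R} =
    (Set.pi univ fun _ : Fin (1 + 1) => Ico (0 : ℝ) 1) ×ˢ
      ((Set.pi univ fun _ : Fin (1 + 1) => Icc (-R) R) ×ˢ Ico (0 : ℝ) 1) := by
  ext z
  simp only [DD, mem_ofPred_eq, mem_prod, mem_univ_pi, mem_Icc, abs_le]
  tauto

lemma dd_eq : DD = (Set.pi univ fun _ : Fin (1 + 1) => Ico (0 : ℝ) 1) ×ˢ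
      ((univ : Set P2) ×ˢ Ico (0 : ℝ) 1) := by
  ext z
  simp only [DD, mem_ofPred_eq, mem_prod, mem_univ_pi, mem_univ, true_and]

end BALLL

theorem p_BALL : S_BALL := by
  refine ⟨?_, fun R hR => ?_⟩
  · rw [BALLL.dd_eq]
    exact (MeasurableSet.univ_pi fun _ => measurableSet_Ico).prod
      (MeasurableSet.univ.prod measurableSet_Ico)
  · rw [BALLL.ball_eq, Measure.volume_eq_prod, Measure.prod_prod, Measure.volume_eq_prod,
      Measure.prod_prod, volume_pi_pi, volume_pi_pi]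
    simp only [Real.volume_Ico, Real.volume_Icc, Finset.prod_const, Finset.card_univ,
      Fintype.card_fin, sub_zero, ENNReal.ofReal_one, one_pow, one_mul, mul_one]
    rw [← ENNReal.ofReal_pow (by linarith)]
    apply ENNReal.ofReal_le_ofReal
    apply le_of_eq
    ring

end Pool.Agent.H244.RC
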