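import Pool.Agent.H244.RC.Stm

set_option autoImplicit false

namespace Pool.Agent.H244.RC

open Set Filter Topology MeasureTheory
open Pool.Agent.Helper6K9.ES (Q E Per Sm dX dT Small)
open Pool.Agent.Helper6K9.E3 (TP)
open Pool.Agent.GR.Flow (IsFlowOf)
open scoped NNReal ENNReal

namespace ENERL

theorem dir (f : E 1 → ℝ) (p : E 1) (w : P2) (c : ℝ) :
    fderiv ℝ f p (w, c) = w 0 * dX 0 f p + w 1 * dX 1 f p + c * dT f p := by
  have h : ((w, c) : P2 × ℝ) = w 0 • ((Pi.single 0 1 : P2), (0 : ℝ)) +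
      w 1 • ((Pi.single 1 1 : P2), (0 : ℝ)) + c • ((0 : P2), (1 : ℝ)) := by
    refine Prod.ext ?_ ?_
    · funext i
      fin_cases i <;> simp
    · simp
  rw [h, map_add, map_add, map_smul, map_smul, map_smul]
  rfl

theorem inv_eq {A : Matrix (Fin (1 + 1)) (Fin (1 + 1)) ℝ} (hA : A.PosDef) (f : E 1 → ℝ) (p : E 1)
    (i : Fin (1 + 1)) : A i 0 * bb A f p 0 + A i 1 * bb A f p 1 = dX i f p := by
  have h1 : A.mulVec (bb A f p) = fun k => dX k f p := by
    have h2 : bb A f p = A⁻¹.mulVec (fun k => dX k f p) := rfl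
    rw [h2, Matrix.mulVec_mulVec, Matrix.mul_nonsing_inv A (hA.det_pos.ne'.isUnit),
      Matrix.one_mulVec]
  have h3 := congrFun h1 i
  rw [← h3]
  simp [Matrix.mulVec, dotProduct, Fin.sum_univ_two]

end ENERL

theorem p_ENER : S_ENER := by
  intro A f X K g hF z
  obtain ⟨hpos, hsm, hper, heq, hc1, hlip, hflow⟩ := hF
  have hγ : ∀ r, HasDerivAt (fun r => g r z) (XX A f (g r z)) r := fun r => by
    rw [← heq]
    exact hflow.deriv z r
  have hx : ∀ r, HasDerivAt (fun r => (g r z).1) ((g r z).2.1) r := fun r =>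
    (ContinuousLinearMap.fst ℝ P2 (P2 × ℝ)).hasFDerivAt.comp_hasDerivAt r (hγ r)
  have hv : ∀ r, HasDerivAt (fun r => (g r z).2.1) (bb A f ((g r z).1, (g r z).2.2)) r := fun r =>
    ((ContinuousLinearMap.fst ℝ P2 ℝ).comp
      (ContinuousLinearMap.snd ℝ P2 (P2 × ℝ))).hasFDerivAt.comp_hasDerivAt r (hγ r)
  have hs : ∀ r, HasDerivAt (fun r => (g r z).2.2) 1 r := fun r =>
    ((ContinuousLinearMap.snd ℝ P2 ℝ).comp
      (ContinuousLinearMap.snd ℝ P2 (P2 × ℝ))).hasFDerivAt.comp_hasDerivAt r (hγ r)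
  have hvi : ∀ i r, HasDerivAt (fun r => (g r z).2.1 i) (bb A f ((g r z).1, (g r z).2.2) i) r :=
    fun i r => (hasDerivAt_pi.1 (hv r)) i
  have hf : ∀ r, HasDerivAt (fun r => f ((g r z).1, (g r z).2.2))
      (fderiv ℝ f ((g r z).1, (g r z).2.2) ((g r z).2.1, 1)) r := fun r =>
    ((hsm.differentiable (by norm_num)) _).hasFDerivAt.comp_hasDerivAt r ((hx r).prodMk (hs r))
  have hsym : A 1 0 = A 0 1 := by
    have := hpos.isHermitian.apply 1 0
    simpa using this.symm
  have hH : ∀ r, HasDerivAt (fun r => HH A f (g r z)) (-dT f ((g r z).1, (g r z).2.2)) r := by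
    intro r
    have h1 : (fun r => HH A f (g r z)) = fun r => 1 / 2 *
        (A 0 0 * (g r z).2.1 0 * (g r z).2.1 0 + A 0 1 * (g r z).2.1 0 * (g r z).2.1 1 +
        (A 1 0 * (g r z).2.1 1 * (g r z).2.1 0 + A 1 1 * (g r z).2.1 1 * (g r z).2.1 1)) -
        f ((g r z).1, (g r z).2.2) := by
      funext r
      have h0 : ∀ F : Fin (1 + 1) → ℝ, ∑ i, F i = F 0 + F 1 := fun F => Fin.sum_univ_two F
      change 1 / 2 * (∑ i, ∑ j, A i j * (g r z).2.1 i * (g r z).2.1 j) -
        f ((g r z).1, (g r z).2.2) = _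
      rw [h0, h0, h0]
    rw [h1]
    have h2 := ((((((hvi 0 r).const_mul (A 0 0)).mul (hvi 0 r)).add
      (((hvi 0 r).const_mul (A 0 1)).mul (hvi 1 r))).add
      ((((hvi 1 r).const_mul (A 1 0)).mul (hvi 0 r)).add
      (((hvi 1 r).const_mul (A 1 1)).mul (hvi 1 r)))).const_mul (1 / 2)).sub (hf r)
    refine h2.congr_deriv ?_
    rw [ENERL.dir]
    have e0 := ENERL.inv_eq hpos f ((g r z).1, (g r z).2.2) 0
    have e1 := ENERL.inv_eq hpos f ((g r z).1, (g r z).2.2) 1
    rw [hsym] at e1 ⊢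
    linear_combination (g r z).2.1 0 * e0 + (g r z).2.1 1 * e1
  have hcont : Continuous fun r => -dT f ((g r z).1, (g r z).2.2) := by
    have h1 : Continuous (fderiv ℝ f) := hsm.continuous_fderiv (by norm_num)
    have h2 : Continuous fun r => ((g r z).1, (g r z).2.2) :=
      (continuous_iff_continuousAt.2 fun r => (hx r).continuousAt).prodMk
        (continuous_iff_continuousAt.2 fun r => (hs r).continuousAt)
    exact ((h1.comp h2).clm_apply continuous_const).neg
  have h3 := intervalIntegral.integral_eq_sub_of_hasDerivAt (a := 0) (b := 1)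
    (fun r _ => hH r) (hcont.intervalIntegrable 0 1)
  rw [intervalIntegral.integral_neg] at h3
  rw [h3, hflow.zero]

end Pool.Agent.H244.RC
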