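import Pool.Agent.H244.RC.Stm

/-!
# Project RC (helper244), EQV: equivariance of the flow (helper187)
-/

set_option autoImplicit false

namespace Pool.Agent.H244.RC

open Set Filter Topology MeasureTheory
open Pool.Agent.Helper6K9.ES (Q E Per Sm dX dT Small)
open Pool.Agent.GR.Flow (IsFlowOf)
open scoped NNReal ENNReal

namespace EQVL

/-- the translation vector -/
def cv (k : Fin (1 + 1) → ℤ) (l : ℤ) : E5 := ((fun i => (k i : ℝ)), 0, (l : ℝ))

theorem tr_eq (k : Fin (1 + 1) → ℤ) (l : ℤ) (z : E5) : tr k l z = z + cv k l := by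
  unfold tr cv
  refine Prod.ext rfl (Prod.ext ?_ rfl)
  exact (add_zero z.2.1).symm

theorem bb_per (A : Matrix (Fin (1 + 1)) (Fin (1 + 1)) ℝ) {f : E 1 → ℝ} (hf : Per f)
    (k : Fin (1 + 1) → ℤ) (l : ℤ) (p : E 1) :
    bb A f (p.1 + (fun i => (k i : ℝ)), p.2 + l) = bb A f p := by
  have h := Pool.Agent.Helper6K9.ES.OdeL.fderiv_per f hf p k l
  unfold bb dX
  rw [h]

theorem XX_tr (A : Matrix (Fin (1 + 1)) (Fin (1 + 1)) ℝ) {f : E 1 → ℝ} (hf : Per f)
    (k : Fin (1 + 1) → ℤ) (l : ℤ) (z : E5) : XX A f (tr k l z) = XX A f z := by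
  have h := bb_per A hf k l (z.1, z.2.2)
  unfold XX tr
  simp only at h ⊢
  rw [h]

theorem equiv {A : Matrix (Fin (1 + 1)) (Fin (1 + 1)) ℝ} {f : E 1 → ℝ} {X : C(E5, E5)}
    {K : ℝ≥0} {g : ℝ → E5 → E5} (h : Fl A f X K g) (k : Fin (1 + 1) → ℤ) (l : ℤ) (z : E5) :
    (fun t => g t (tr k l z)) = fun t => tr k l (g t z) := by
  refine ODE_solution_unique_univ (v := fun _ => X) (s := fun _ => univ) (K := K) (t₀ := 0)
    (fun t => h.lip.lipschitzOnWith) (fun t => ⟨h.flow.deriv _ t, trivial⟩) (fun t => ⟨?_, trivial⟩) ?_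
  · have h1 : X (tr k l (g t z)) = X (g t z) := by
      rw [h.eq, h.eq, XX_tr A h.per]
    have h2 : (fun t => tr k l (g t z)) = fun t => g t z + cv k l := by
      funext t
      exact tr_eq k l (g t z)
    rw [h1, h2]
    exact (h.flow.deriv z t).add_const (cv k l)
  · rw [h.flow.zero, h.flow.zero]

theorem time {A : Matrix (Fin (1 + 1)) (Fin (1 + 1)) ℝ} {f : E 1 → ℝ} {X : C(E5, E5)}
    {K : ℝ≥0} {g : ℝ → E5 → E5} (h : Fl A f X K g) (t : ℝ) (z : E5) : (g t z).2.2 = z.2.2 + t := by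
  have h1 : ∀ s : ℝ, HasDerivAt (fun s => (g s z).2.2 - s) 0 s := by
    intro s
    have h2 := h.flow.deriv z s
    have h3 : HasDerivAt (fun s => (g s z).2.2) (X (g s z)).2.2 s := h2.snd.snd
    have h4 : (X (g s z)).2.2 = 1 := by rw [h.eq]; rfl
    rw [h4] at h3
    have h5 := h3.sub (hasDerivAt_id s)
    rw [sub_self] at h5
    exact h5
  have h6 := is_const_of_deriv_eq_zero (f := fun s => (g s z).2.2 - s)
    (fun s => (h1 s).differentiableAt) (fun s => (h1 s).deriv) t 0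
  simp only [sub_zero] at h6
  rw [h.flow.zero] at h6
  linarith

end EQVL

open EQVL in
theorem p_EQV : S_EQV := by
  intro A f X K g h
  refine ⟨fun t k l z => congrFun (equiv h k l z) t, fun n z => ?_, fun t z => time h t z⟩
  induction n with
  | zero =>
    rw [Function.iterate_zero_apply, Nat.cast_zero, h.flow.zero]
  | succ n ih =>
    rw [Function.iterate_succ_apply', ih, ← IsFlowOf.add h.lip h.flow 1 n z, Nat.cast_succ, add_comm]

end Pool.Agent.H244.RC
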