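import Pool.Agent.H244.RC.Stm

set_option autoImplicit false

namespace Pool.Agent.H244.RC

open Set Filter Topology MeasureTheory
open Pool.Agent.Helper6K9.ES (Q E Per Sm dX dT Small)
open Pool.Agent.GR.Flow (IsFlowOf)
open scoped NNReal ENNReal

namespace FLOWL

open Pool.Agent.Helper6K9.ES.OdeL in
lemma force (A : Matrix (Fin (1 + 1)) (Fin (1 + 1)) ℝ) (f : E 1 → ℝ) (hf : ContDiff ℝ 2 f)
    (hper : Per f) : ∃ K : ℝ≥0, ContDiff ℝ 1 (bb A f) ∧ LipschitzWith K (bb A f) := by
  have hf1 : ContDiff ℝ 1 (fderiv ℝ f) := hf.fderiv_right (by norm_num)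
  have hcont2 : Continuous (fderiv ℝ (fderiv ℝ f)) := hf1.continuous_fderiv (by norm_num)
  obtain ⟨C, hC⟩ := bounded_of_per _ hcont2 (fderiv_per _ (fderiv_per _ hper))
  have hC0 : 0 ≤ C := (norm_nonneg _).trans (hC 0)
  have hlip : LipschitzWith ⟨C, hC0⟩ (fderiv ℝ f) :=
    lipschitzWith_of_nnnorm_fderiv_le (hf1.differentiable (by norm_num)) fun p => hC p
  have hb : bb A f = fun p : E 1 => Lam A⁻¹ (fderiv ℝ f p) := by
    funext p
    funext i
    rw [Lam_apply]
    rfl
  rw [hb]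
  exact ⟨‖Lam (m := 1) A⁻¹‖₊ * ⟨C, hC0⟩, (Lam A⁻¹).contDiff.comp hf1,
    (Lam A⁻¹).lipschitz.comp hlip⟩

end FLOWL

theorem p_FLOW : S_FLOW := by
  intro A f hA hf hper
  obtain ⟨K, hc, hl⟩ := FLOWL.force A f hf hper
  have hX1 : ContDiff ℝ 1 (XX A f) := by
    have h1 : ContDiff ℝ 1 (fun z : E5 => z.2.1) := contDiff_fst.comp contDiff_snd
    have h2 : ContDiff ℝ 1 (fun z : E5 => ((z.1, z.2.2) : E 1)) :=
      contDiff_fst.prodMk (contDiff_snd.comp contDiff_snd)
    exact h1.prodMk ((hc.comp h2).prodMk contDiff_const)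
  have hXl : LipschitzWith (max 1 (max (K * 1) 0)) (XX A f) := by
    have h1 : LipschitzWith 1 (fun z : E5 => z.2.1) := by
      have := (LipschitzWith.prod_fst (α := P2) (β := ℝ)).comp
        (LipschitzWith.prod_snd (α := P2) (β := P2 × ℝ))
      rw [mul_one] at this
      exact this
    have h2 : LipschitzWith 1 (fun z : E5 => ((z.1, z.2.2) : E 1)) := by
      have h3 : LipschitzWith 1 (fun z : E5 => z.2.2) := by
        have := (LipschitzWith.prod_snd (α := P2) (β := ℝ)).comp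
          (LipschitzWith.prod_snd (α := P2) (β := P2 × ℝ))
        rw [mul_one] at this
        exact this
      have h4 := (LipschitzWith.prod_fst (α := P2) (β := P2 × ℝ)).prodMk h3
      rw [max_self] at h4
      exact h4
    exact h1.prodMk ((hl.comp h2).prodMk (LipschitzWith.const 1))
  have hflow : ∀ z : E5, ∃ ξ : ℝ → E5, ξ 0 = z ∧ ∀ t, HasDerivAt ξ (XX A f (ξ t)) t := fun z =>
    Haraux.global_ode (fun _ y => XX A f y) _ (fun _ => hXl)
      (hX1.continuous.comp continuous_snd) z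
  choose g hg0 hg1 using hflow
  exact ⟨⟨XX A f, hX1.continuous⟩, _, fun t z => g z t,
    { pos := hA
      smooth := hf
      per := hper
      eq := fun z => rfl
      c1 := hX1
      lip := hXl
      flow := ⟨hg0, fun x t => hg1 x t⟩ }⟩

end Pool.Agent.H244.RC
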