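import Pool.Agent.H244.RC.Stm

/-!
# The flux through the levels (part FLUX, helper808)
-/

set_option autoImplicit false

namespace Pool.Agent.H244.RC

open Set Filter Topology MeasureTheory
open scoped NNReal ENNReal

namespace FLUXL

variable {X : Type} [MeasurableSpace X]

/-- the points that fall below the level `C` -/
def SS (T : X → X) (H : X → ℝ) (C : ℝ) : Set X := {x | C ≤ H x ∧ H (T x) < C}

theorem meas_prod {T : X → X} {H : X → ℝ} (hT : Measurable T) (hH : Measurable H) :
    MeasurableSet {p : ℝ × X | p.1 ≤ H p.2 ∧ H (T p.2) < p.1} :=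
  (measurableSet_le measurable_fst (hH.comp measurable_snd)).inter
    (measurableSet_lt (hH.comp (hT.comp measurable_snd)) measurable_fst)

theorem meas_SS {T : X → X} {H : X → ℝ} (hT : Measurable T) (hH : Measurable H) (C : ℝ) :
    MeasurableSet (SS T H C) :=
  (measurableSet_le measurable_const hH).inter (measurableSet_lt (hH.comp hT) measurable_const)

omit [MeasurableSpace X] in
theorem inner_le (T : X → X) (H : X → ℝ) (N : ℝ) (x : X) :
    ∫⁻ C in Ioc (N / 2) N, (SS T H C).indicator (fun _ => (1 : ℝ≥0∞)) x ≤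
      {x | H (T x) < N}.indicator (fun x => ENNReal.ofReal |H (T x) - H x|) x := by
  have e : ∀ C, (SS T H C).indicator (fun _ => (1 : ℝ≥0∞)) x =
      (Ioc (H (T x)) (H x)).indicator (fun _ => (1 : ℝ≥0∞)) C := by
    intro C
    by_cases h : C ∈ Ioc (H (T x)) (H x)
    · rw [indicator_of_mem h, indicator_of_mem (show x ∈ SS T H C from ⟨h.2, h.1⟩)]
    · rw [indicator_of_notMem h, indicator_of_notMem (show x ∉ SS T H C from fun h' => h ⟨h'.2, h'.1⟩)]
  simp only [e]
  rw [lintegral_indicator measurableSet_Ioc, Measure.restrict_restrict measurableSet_Ioc,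
    setLIntegral_one]
  by_cases hx : H (T x) < N
  · rw [indicator_of_mem (show x ∈ {x | H (T x) < N} from hx)]
    refine (measure_mono inter_subset_left).trans ?_
    rw [Real.volume_Ioc]
    refine ENNReal.ofReal_le_ofReal ?_
    rw [abs_sub_comm]
    exact le_abs_self _
  · rw [indicator_of_notMem (show x ∉ {x | H (T x) < N} from hx)]
    have : Ioc (H (T x)) (H x) ∩ Ioc (N / 2) N = ∅ := by
      rw [eq_empty_iff_forall_notMem]
      rintro C ⟨h1, h2⟩
      exact hx (h1.1.trans_le h2.2)
    rw [this, measure_empty]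

theorem upper (μ : Measure X) [SFinite μ] {T : X → X} {H : X → ℝ} (hT : Measurable T)
    (hH : Measurable H) (N : ℝ) :
    ∫⁻ C in Ioc (N / 2) N, μ (SS T H C) ≤
      ∫⁻ x in {x | H (T x) < N}, ENNReal.ofReal |H (T x) - H x| ∂μ := by
  have e1 : ∀ C, μ (SS T H C) = ∫⁻ x, (SS T H C).indicator (fun _ => (1 : ℝ≥0∞)) x ∂μ := by
    intro C
    rw [lintegral_indicator_const (meas_SS hT hH C), one_mul]
  simp only [e1]
  rw [lintegral_lintegral_swap]
  · have hm : MeasurableSet {x | H (T x) < N} := measurableSet_lt (hH.comp hT) measurable_const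
    rw [← lintegral_indicator hm]
    exact lintegral_mono fun x => inner_le T H N x
  · have h1 : Measurable ({p : ℝ × X | p.1 ≤ H p.2 ∧ H (T p.2) < p.1}.indicator
        (fun _ => (1 : ℝ≥0∞))) := measurable_const.indicator (meas_prod hT hH)
    refine h1.aemeasurable.congr (Eventually.of_forall fun p => ?_)
    rfl

end FLUXL

open FLUXL

theorem p_FLUX : S_FLUX := by
  intro X _ μ _ T H hT hH h ε hε C₀
  by_cases hε' : ε = ⊤
  · exact ⟨C₀, le_rfl, by rw [hε']; exact le_top⟩
  have he : 0 < ε.toReal := ENNReal.toReal_pos hε.ne' hε'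
  obtain ⟨N, hN, hint⟩ := h (ε.toReal / 3) (by positivity) (max (2 * C₀) 1)
  have hN1 : 1 ≤ N := (le_max_right _ _).trans hN
  have hN2 : 2 * C₀ ≤ N := (le_max_left _ _).trans hN
  by_contra hcon
  push Not at hcon
  have lower : ε * ENNReal.ofReal (N / 2) ≤ ∫⁻ C in Ioc (N / 2) N, μ (SS T H C) := by
    calc ε * ENNReal.ofReal (N / 2) = ∫⁻ C in Ioc (N / 2) N, ε := by
          rw [setLIntegral_const, Real.volume_Ioc]
          congr 2
          ring
      _ ≤ _ := setLIntegral_mono' measurableSet_Ioc fun C hC => (hcon C (by linarith [hC.1])).le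
  have h1 := (lower.trans (upper μ hT hH N)).trans hint
  rw [← ENNReal.ofReal_toReal hε', ← ENNReal.ofReal_mul he.le,
    ENNReal.ofReal_le_ofReal_iff (by rw [ENNReal.toReal_ofReal he.le]; positivity)] at h1
  rw [ENNReal.toReal_ofReal he.le] at h1
  nlinarith

end Pool.Agent.H244.RC
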