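import Pool.Agent.H244.RC.Stm

set_option autoImplicit false

namespace Pool.Agent.H244.RC

open Set Filter Topology MeasureTheory
open Pool.Agent.Helper6K9.ES (Q E Per Sm dX dT Small)
open Pool.Agent.Helper6K9.E3 (TP)
open scoped ContDiff

namespace GOODL

/-- bounds for the derivatives of a smooth periodic function -/
lemma per_bd {c : ℝ → ℝ} (hc : ContDiff ℝ ∞ c) (hp : ∀ t, c (t + 1) = c t) :
    ∃ M : ℝ, 0 ≤ M ∧ ∀ t, |deriv c t| ≤ M ∧ |deriv (deriv c) t| ≤ M := by
  have hd1 : ContDiff ℝ ∞ (deriv c) := by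
    have := hc.iterate_deriv 1
    simpa using this
  have hd2 : ContDiff ℝ ∞ (deriv (deriv c)) := by
    have := hc.iterate_deriv 2
    simpa using this
  have hp1 : ∀ t, deriv c (t + 1) = deriv c t := by
    intro t
    have h1 : (fun x => c (x + 1)) = c := funext hp
    have h2 := deriv_comp_add_const (f := c) (a := (1 : ℝ)) (x := t)
    rw [h1] at h2
    exact h2.symm
  have hp2 : ∀ t, deriv (deriv c) (t + 1) = deriv (deriv c) t := by
    intro t
    have h1 : (fun x => deriv c (x + 1)) = deriv c := funext hp1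
    have h2 := deriv_comp_add_const (f := deriv c) (a := (1 : ℝ)) (x := t)
    rw [h1] at h2
    exact h2.symm
  have b1 : Bornology.IsBounded (range (deriv c)) :=
    Function.Periodic.isBounded_of_continuous (c := 1) hp1 one_ne_zero hd1.continuous
  have b2 : Bornology.IsBounded (range (deriv (deriv c))) :=
    Function.Periodic.isBounded_of_continuous (c := 1) hp2 one_ne_zero hd2.continuous
  obtain ⟨M1, h1⟩ := b1.exists_norm_le
  obtain ⟨M2, h2⟩ := b2.exists_norm_le
  refine ⟨max 0 (max M1 M2), le_max_left _ _, fun t => ⟨?_, ?_⟩⟩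
  · exact (h1 _ (mem_range_self t)).trans ((le_max_left _ _).trans (le_max_right _ _))
  · exact (h2 _ (mem_range_self t)).trans ((le_max_right _ _).trans (le_max_right _ _))

/-- the phase -/
noncomputable def ph (k : Fin (1 + 1) → ℤ) (y : P2) : ℝ := 2 * Real.pi * ∑ i, (k i : ℝ) * y i

lemma ph_deriv {k : Fin (1 + 1) → ℤ} {x v : ℝ → P2} (hx : ∀ r, HasDerivAt x (v r) r) (r : ℝ) :
    HasDerivAt (fun r => ph k (x r)) (ph k (v r)) r := by
  unfold ph
  apply HasDerivAt.const_mul
  apply HasDerivAt.fun_sum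
  intro i _
  exact ((hasDerivAt_pi.1 (hx r)) i).const_mul _

lemma ph_bd {k : Fin (1 + 1) → ℤ} {N : ℕ} (hk : ∀ i, |k i| ≤ (N : ℤ)) {y : P2} {B : ℝ} (hy : ‖y‖ ≤ B) :
    |ph k y| ≤ 4 * Real.pi * N * |B| := by
  have h1 : ∀ i, |(k i : ℝ) * y i| ≤ N * |B| := by
    intro i
    rw [abs_mul]
    have h2 : |(k i : ℝ)| ≤ N := by
      have := hk i
      exact_mod_cast this
    have h3 : |y i| ≤ |B| := by
      rw [← Real.norm_eq_abs]
      exact (norm_le_pi_norm y i).trans (hy.trans (le_abs_self B))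
    exact mul_le_mul h2 h3 (abs_nonneg _) (Nat.cast_nonneg _)
  have h2 : |∑ i, (k i : ℝ) * y i| ≤ 2 * (N * |B|) := by
    refine (Finset.abs_sum_le_sum_abs _ _).trans ?_
    refine (Finset.sum_le_sum fun i _ => h1 i).trans (le_of_eq ?_)
    rw [Finset.sum_const, Finset.card_univ, Fintype.card_fin]
    norm_num
  unfold ph
  rw [abs_mul, abs_of_pos Real.two_pi_pos]
  have := mul_le_mul_of_nonneg_left h2 Real.two_pi_pos.le
  linarith

/-- the derivative in the time of a trigonometric polynomial -/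
lemma dT_eq {F : E 1 → ℝ} {s : Finset (Fin (1 + 1) → ℤ)} {c d : (Fin (1 + 1) → ℤ) → ℝ → ℝ}
    (hc : ∀ k, ContDiff ℝ ∞ (c k)) (hd : ∀ k, ContDiff ℝ ∞ (d k))
    (hF : ∀ p : E 1, F p = ∑ k ∈ s, (c k p.2 * Real.cos (2 * Real.pi * ∑ i, (k i : ℝ) * p.1 i) +
      d k p.2 * Real.sin (2 * Real.pi * ∑ i, (k i : ℝ) * p.1 i))) (p : E 1) :
    dT F p = ∑ k ∈ s, (deriv (c k) p.2 * Real.cos (ph k p.1) + deriv (d k) p.2 * Real.sin (ph k p.1)) := by
  have hcd : ∀ k, Differentiable ℝ (c k) := fun k => (hc k).differentiable (by simp)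
  have hdd : ∀ k, Differentiable ℝ (d k) := fun k => (hd k).differentiable (by simp)
  have hFd : Differentiable ℝ F := by
    have e : F = fun p : E 1 => ∑ k ∈ s, (c k p.2 * Real.cos (2 * Real.pi * ∑ i, (k i : ℝ) * p.1 i) +
      d k p.2 * Real.sin (2 * Real.pi * ∑ i, (k i : ℝ) * p.1 i)) := funext hF
    rw [e]
    apply Differentiable.fun_sum
    intro k _
    have h1 : Differentiable ℝ fun p : E 1 => c k p.2 := (hcd k).comp differentiable_snd
    have h2 : Differentiable ℝ fun p : E 1 => d k p.2 := (hdd k).comp differentiable_snd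
    have h3 : Differentiable ℝ fun p : E 1 => 2 * Real.pi * ∑ i, (k i : ℝ) * p.1 i := by
      fun_prop
    exact (h1.mul h3.cos).add (h2.mul h3.sin)
  have h1 : HasDerivAt (fun t : ℝ => F (p.1, t)) (fderiv ℝ F p (0, 1)) p.2 := by
    have g1 : HasFDerivAt F (fderiv ℝ F p) (p.1, p.2) := (hFd p).hasFDerivAt
    have g2 : HasDerivAt (fun t : ℝ => ((p.1, t) : E 1)) ((0, 1) : E 1) p.2 :=
      (hasDerivAt_const p.2 p.1).prodMk (hasDerivAt_id p.2)
    exact g1.comp_hasDerivAt p.2 g2
  have h2 : HasDerivAt (fun t : ℝ => F (p.1, t))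
      (∑ k ∈ s, (deriv (c k) p.2 * Real.cos (ph k p.1) + deriv (d k) p.2 * Real.sin (ph k p.1))) p.2 := by
    have e : (fun t : ℝ => F (p.1, t)) = fun t : ℝ =>
        ∑ k ∈ s, (c k t * Real.cos (ph k p.1) + d k t * Real.sin (ph k p.1)) := funext fun t => hF (p.1, t)
    rw [e]
    apply HasDerivAt.fun_sum
    intro k _
    exact (((hcd k) p.2).hasDerivAt.mul_const _).add (((hdd k) p.2).hasDerivAt.mul_const _)
  unfold dT
  exact h1.unique h2

end GOODL

open GOODL in
/-- [GOOD] -/
theorem p_GOOD (hOSC : S_OSC) : S_GOOD := by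
  intro N F B ε hε hTP
  obtain ⟨s, c, d, hs, hcd, hF⟩ := hTP
  have hc : ∀ k, ContDiff ℝ ∞ (c k) := fun k => (hcd k).1
  have hd : ∀ k, ContDiff ℝ ∞ (d k) := fun k => (hcd k).2.1
  choose Mc hMc0 hMc using fun k => per_bd (hc k) (hcd k).2.2.1
  choose Md hMd0 hMd using fun k => per_bd (hd k) (hcd k).2.2.2
  set M : ℝ := ∑ k ∈ s, (Mc k + Md k) with hM
  have hM0 : 0 ≤ M := Finset.sum_nonneg fun k _ => add_nonneg (hMc0 k) (hMd0 k)
  have hMk : ∀ k ∈ s, Mc k + Md k ≤ M := fun k hk =>
    Finset.single_le_sum (f := fun k => Mc k + Md k) (fun k _ => add_nonneg (hMc0 k) (hMd0 k)) hk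
  set B' : ℝ := 4 * Real.pi * N * |B| with hB'
  have hB'0 : 0 ≤ B' := by positivity
  set L : ℝ := 1 + 2 * s.card * M * (3 + B') / ε with hL
  have hL1 : 1 ≤ L := by
    have : 0 ≤ 2 * s.card * M * (3 + B') / ε := by positivity
    linarith
  have hL0 : 0 < L := by linarith
  refine ⟨L + B', fun x v a s₀ hx hv ha haB hres => ?_⟩
  have hxc : Continuous x := continuous_iff_continuousAt.2 fun r => (hx r).continuousAt
  have hvc : Continuous v := continuous_iff_continuousAt.2 fun r => (hv r).continuousAt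
  have hphc : ∀ k, Continuous fun r => ph k (x r) := fun k =>
    continuous_iff_continuousAt.2 fun r => (ph_deriv hx r).continuousAt
  have hd1 : ∀ (g : ℝ → ℝ), ContDiff ℝ ∞ g → ContDiff ℝ ∞ (deriv g) := fun g hg => by
    have := hg.iterate_deriv 1
    simpa using this
  -- the terms
  have hcc : ∀ k, Continuous fun r => deriv (c k) (s₀ + r) * Real.cos (ph k (x r)) := fun k =>
    ((hd1 _ (hc k)).continuous.comp (continuous_const.add continuous_id)).mul (Real.continuous_cos.comp (hphc k))
  have hdc : ∀ k, Continuous fun r => deriv (d k) (s₀ + r) * Real.sin (ph k (x r)) := fun k =>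
    ((hd1 _ (hd k)).continuous.comp (continuous_const.add continuous_id)).mul (Real.continuous_sin.comp (hphc k))
  have e1 : ∫ r in (0 : ℝ)..1, dT F (x r, s₀ + r) =
      ∑ k ∈ s, ((∫ r in (0 : ℝ)..1, deriv (c k) (s₀ + r) * Real.cos (ph k (x r))) +
        ∫ r in (0 : ℝ)..1, deriv (d k) (s₀ + r) * Real.sin (ph k (x r))) := by
    have e2 : (fun r => dT F (x r, s₀ + r)) = fun r => ∑ k ∈ s, (deriv (c k) (s₀ + r) * Real.cos (ph k (x r)) +
        deriv (d k) (s₀ + r) * Real.sin (ph k (x r))) := funext fun r => dT_eq hc hd hF _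
    have hint : ∀ k ∈ s, IntervalIntegrable (fun r => deriv (c k) (s₀ + r) * Real.cos (ph k (x r)) +
        deriv (d k) (s₀ + r) * Real.sin (ph k (x r))) volume 0 1 := fun k _ =>
      ((hcc k).add (hdc k)).intervalIntegrable _ _
    rw [e2, intervalIntegral.integral_finsetSum hint]
    refine Finset.sum_congr rfl fun k _ => ?_
    exact intervalIntegral.integral_add ((hcc k).intervalIntegrable _ _) ((hdc k).intervalIntegrable _ _)
  have hterm : ∀ k ∈ s, |(∫ r in (0 : ℝ)..1, deriv (c k) (s₀ + r) * Real.cos (ph k (x r))) +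
        ∫ r in (0 : ℝ)..1, deriv (d k) (s₀ + r) * Real.sin (ph k (x r))| ≤ 2 * (M * (3 + B')) / L := by
    intro k hk
    have hkN : ∀ i, |k i| ≤ (N : ℤ) := hs k hk
    by_cases hk0 : k = 0
    · have hph0 : ∀ y, ph k y = 0 := fun y => by
        unfold ph
        rw [hk0]
        simp
      simp only [hph0, Real.cos_zero, Real.sin_zero, mul_one, mul_zero, intervalIntegral.integral_zero, add_zero]
      have h1 : ∫ r in (0 : ℝ)..1, deriv (c k) (s₀ + r) = 0 := by
        have h2 : ∀ r ∈ uIcc (0 : ℝ) 1, HasDerivAt (fun r => c k (s₀ + r)) (deriv (c k) (s₀ + r)) r := fun r _ => by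
          have h3 : HasDerivAt (c k) (deriv (c k) (s₀ + r)) (s₀ + r) :=
            (((hc k).differentiable (by simp)) _).hasDerivAt
          exact h3.comp_const_add s₀ r
        rw [intervalIntegral.integral_eq_sub_of_hasDerivAt h2]
        · rw [(hcd k).2.2.1 s₀, add_zero, sub_self]
        · exact ((hd1 _ (hc k)).continuous.comp (continuous_const.add continuous_id)).intervalIntegrable _ _
      rw [h1, abs_zero]
      positivity
    · -- the derivative of the phase is large
      have hlow : ∀ r ∈ Icc (0 : ℝ) 1, L ≤ |ph k (v r)| := by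
        intro r hr
        have h1 := hres k hk0 hkN
        have h2 : L + B' ≤ |ph k (v 0)| := by
          unfold ph
          rw [abs_mul, abs_of_pos Real.two_pi_pos]
          have hpi : 1 ≤ 2 * Real.pi := by have := Real.pi_gt_three; linarith
          have h3 : 0 ≤ |∑ i, (k i : ℝ) * v 0 i| := abs_nonneg _
          nlinarith
        have h4 : ‖ph k (v r) - ph k (v 0)‖ ≤ B' * ‖r - 0‖ := by
          refine (convex_Icc (0 : ℝ) 1).norm_image_sub_le_of_norm_hasDerivWithin_le
            (f := fun r => ph k (v r)) (f' := fun r => ph k (a r))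
            (fun y _ => (ph_deriv hv y).hasDerivWithinAt) (fun y _ => ?_) (by simp) hr
          exact ph_bd hkN (haB y)
        rw [sub_zero, Real.norm_eq_abs, Real.norm_eq_abs, abs_of_nonneg hr.1] at h4
        have h5 : B' * r ≤ B' := by
          have := mul_le_mul_of_nonneg_left hr.2 hB'0
          linarith
        have h6 : |ph k (v 0)| - |ph k (v r)| ≤ |ph k (v 0) - ph k (v r)| := abs_sub_abs_le_abs_sub _ _
        rw [abs_sub_comm] at h6
        linarith
      have hosc : ∀ (g : ℝ → ℝ) (hg : ContDiff ℝ ∞ g) (hgb : ∀ t, |deriv g t| ≤ M ∧ |deriv (deriv g) t| ≤ M),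
          |∫ r in (0 : ℝ)..1, deriv g (s₀ + r) * Real.cos (ph k (x r))| ≤ M * (3 / L + B' / L ^ 2) ∧
          |∫ r in (0 : ℝ)..1, deriv g (s₀ + r) * Real.sin (ph k (x r))| ≤ M * (3 / L + B' / L ^ 2) := by
        intro g hg hgb
        refine hOSC (fun r => deriv g (s₀ + r)) (fun r => deriv (deriv g) (s₀ + r)) (fun r => ph k (x r))
          (fun r => ph k (v r)) (fun r => ph k (a r)) M B' L hL0 ?_ ?_ ?_ (ph_deriv hx) (ph_deriv hv) ?_
        · exact (hd1 _ (hd1 _ hg)).continuous.comp (continuous_const.add continuous_id)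
        · unfold ph
          fun_prop
        · intro r
          have h3 : HasDerivAt (deriv g) (deriv (deriv g) (s₀ + r)) (s₀ + r) :=
            (((hd1 _ hg).differentiable (by simp)) _).hasDerivAt
          exact h3.comp_const_add s₀ r
        · intro r hr
          exact ⟨(hgb _).1, (hgb _).2, ph_bd hkN (haB r), hlow r hr⟩
      have hk' := hMk k hk
      have q1 := (hosc (c k) (hc k) fun t => ⟨((hMc k t).1.trans (by linarith [hMd0 k])),
        ((hMc k t).2.trans (by linarith [hMd0 k]))⟩).1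
      have q2 := (hosc (d k) (hd k) fun t => ⟨((hMd k t).1.trans (by linarith [hMc0 k])),
        ((hMd k t).2.trans (by linarith [hMc0 k]))⟩).2
      have q3 : M * (3 / L + B' / L ^ 2) ≤ M * (3 + B') / L := by
        have q5 : M * (3 + B') / L = M * ((3 + B') / L) := by ring
        rw [q5]
        refine mul_le_mul_of_nonneg_left ?_ hM0
        rw [add_div]
        have : B' / L ^ 2 ≤ B' / L := by
          apply div_le_div_of_nonneg_left hB'0 hL0
          nlinarith
        linarith
      refine (abs_add_le _ _).trans ?_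
      have q4 : 2 * (M * (3 + B')) / L = M * (3 + B') / L + M * (3 + B') / L := by ring
      rw [q4]
      linarith
  rw [e1]
  refine (Finset.abs_sum_le_sum_abs _ _).trans ((Finset.sum_le_sum hterm).trans ?_)
  rw [Finset.sum_const, nsmul_eq_mul, mul_div_assoc', div_le_iff₀ hL0]
  have h1 : 2 * s.card * M * (3 + B') / ε ≤ L := by rw [hL]; linarith
  rw [div_le_iff₀ hε] at h1
  linarith

end Pool.Agent.H244.RC
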