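import Pool.Agent.H244.RC.Stm
import Pool.Graph.R_pool_sql_team_seeded_2aa45f1a.Q205.Liou.Vol

/-!
# Assembly: almost every orbit is recurrent in the future (project RC, helper244)
-/

set_option autoImplicit false

namespace Pool.Agent.H244.RC

open Set Filter Topology MeasureTheory
open Pool.Agent.Helper6K9.ES (Q E Per Sm dX dT Small)
open Pool.Agent.GR.Flow (IsFlowOf)
open scoped NNReal ENNReal

namespace MAINL

/-- the recurrent points of `G` modulo the lattice -/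
def RR (G : E5 → E5) : Set E5 := {z | ∀ ε : ℝ, 0 < ε → ∀ N : ℕ, ∃ n : ℕ, N ≤ n ∧
    ∃ (k : Fin (1 + 1) → ℤ) (l : ℤ), ‖tr k l (G^[n] z) - z‖ < ε}

lemma continuous_tr (k : Fin (1 + 1) → ℤ) (l : ℤ) : Continuous (tr k l) := by
  unfold tr
  fun_prop

lemma RR_eq (G : E5 → E5) : RR G = ⋂ m : ℕ, ⋂ N : ℕ, ⋃ n : ℕ, ⋃ _ : N ≤ n,
    ⋃ k : Fin (1 + 1) → ℤ, ⋃ l : ℤ, {z | ‖tr k l (G^[n] z) - z‖ < 1 / ((m : ℝ) + 1)} := by
  ext z
  simp only [RR, mem_setOf_eq, mem_iInter, mem_iUnion]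
  constructor
  · intro h m N
    obtain ⟨n, hn, k, l, hkl⟩ := h (1 / ((m : ℝ) + 1)) (by positivity) N
    exact ⟨n, hn, k, l, hkl⟩
  · intro h ε hε N
    obtain ⟨m, hm⟩ := exists_nat_one_div_lt hε
    obtain ⟨n, hn, k, l, hkl⟩ := h m N
    exact ⟨n, hn, k, l, hkl.trans hm⟩

lemma isGδ_RR (G : E5 → E5) (hG : Continuous G) : IsGδ (RR G) := by
  rw [RR_eq]
  refine IsGδ.iInter fun m => IsGδ.iInter fun N => IsOpen.isGδ ?_
  refine isOpen_iUnion fun n => isOpen_iUnion fun _ => isOpen_iUnion fun k =>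
    isOpen_iUnion fun l => ?_
  exact isOpen_lt (((continuous_tr k l).comp (hG.iterate n)).sub continuous_id).norm
    continuous_const

lemma residual_RR (G : E5 → E5) (hG : Continuous G) (h : ∀ᵐ z : E5, z ∈ RR G) :
    ∀ᶠ z in residual E5, z ∈ RR G :=
  residual_of_dense_Gδ (isGδ_RR G hG) (Measure.dense_of_ae h)

lemma rec_of_RR {A : Matrix (Fin (1 + 1)) (Fin (1 + 1)) ℝ} {f : E 1 → ℝ} {g : ℝ → E5 → E5}
    (hit : ∀ (n : ℕ) z, (g 1)^[n] z = g n z)
    (horb : ∀ γ : ℝ → P2, Pool.Agent.Helper6K9.EG.Orb A f γ → ∀ t r : ℝ,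
      g r (γ t, deriv γ t, t) = (γ (t + r), deriv γ (t + r), t + r))
    {z : E5} (hz : z ∈ RR (g 1)) (γ : ℝ → P2) (hγ : Pool.Agent.Helper6K9.EG.Orb A f γ)
    (h1 : γ z.2.2 = z.1) (h2 : deriv γ z.2.2 = z.2.1) : Rec γ z.2.2 := by
  intro ε hε N
  obtain ⟨n, hn, k, l, hkl⟩ := hz ε hε N
  refine ⟨n, hn, -k, ?_, ?_⟩
  · have he : (g 1)^[n] z = (γ (z.2.2 + n), deriv γ (z.2.2 + n), z.2.2 + n) := by
      rw [hit, ← horb γ hγ z.2.2 n, h1, h2]
    rw [he] at hkl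
    have h3 := (norm_fst_le _).trans_lt hkl
    refine lt_of_eq_of_lt ?_ h3
    congr 1
    ext i
    simp [tr, h1]
  · have he : (g 1)^[n] z = (γ (z.2.2 + n), deriv γ (z.2.2 + n), z.2.2 + n) := by
      rw [hit, ← horb γ hγ z.2.2 n, h1, h2]
    rw [he] at hkl
    have h3 := (norm_fst_le _).trans_lt ((norm_snd_le _).trans_lt hkl)
    refine lt_of_eq_of_lt ?_ h3
    congr 1
    ext i
    simp [tr, h2]

end MAINL

open MAINL

theorem p_MAIN (hCONS : S_CONS) (hFLUX : S_FLUX) (hMP : S_MP) (hREC : S_REC) (hFLOW : S_FLOW)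
    (hVOL : S_VOL) (hEQV : S_EQV) (hAVG : S_AVG) (hSUB : S_SUB) (hORB : S_ORB) : S_MAIN := by
  intro A f hA hf hper
  obtain ⟨X, K, g, hg⟩ := hFLOW A f hA hf hper
  obtain ⟨heqv, hit, -⟩ := hEQV A f X K g hg
  obtain ⟨hHm, hHfr, hfin⟩ := hSUB A f hA hf hper
  have hcont : Continuous (g 1) :=
    (Pool.Agent.Q205.Liou.continuous_flow hg.c1 hg.lip hg.flow).comp
      (Continuous.prodMk_right (1 : ℝ))
  have hT := hMP (g 1) (hVOL A f X K g hg) (fun k l z => heqv 1 k l z)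
  have hcons : Conservative (fun z => fr (g 1 z)) (volume.restrict DD) := by
    refine hCONS E5 (volume.restrict DD) _ (HH A f) hT hHm hfin ?_
    refine hFLUX E5 (volume.restrict DD) _ (HH A f) hT.measurable hHm ?_
    intro ε hε N₀
    simp only [hHfr]
    exact hAVG A f X K g hg ε hε N₀
  have hrec : ∀ᵐ z : E5, z ∈ RR (g 1) := hREC (g 1) (fun k l z => heqv 1 k l z) hcons
  have horb := (hORB A f X K g hg).1
  constructor
  · filter_upwards [hrec] with z hz γ hγ h1 h2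
    exact rec_of_RR hit horb hz γ hγ h1 h2
  · filter_upwards [residual_RR (g 1) hcont hrec] with z hz γ hγ h1 h2
    exact rec_of_RR hit horb hz γ hγ h1 h2

end Pool.Agent.H244.RC
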