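import Pool.Agent.H244.RC.Stm

/-!
# Measure preserving maps commuting with the translations, reduced to the fundamental domain
-/

set_option autoImplicit false

namespace Pool.Agent.H244.RC

open Set Filter Topology MeasureTheory

namespace MPL

/-- the lattice -/
abbrev J := (Fin (1 + 1) → ℤ) × ℤ

/-- the cell of a point -/
noncomputable def cc (z : E5) : J := (fun i => ⌊z.1 i⌋, ⌊z.2.2⌋)

theorem cc_tr (k : Fin (1 + 1) → ℤ) (l : ℤ) (z : E5) : cc (tr k l z) = cc z + (k, l) := by
  refine Prod.ext ?_ ?_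
  · funext i
    simp only [cc, tr, Pi.add_apply, Int.floor_add_intCast, Prod.fst_add]
  · simp only [cc, tr, Int.floor_add_intCast, Prod.snd_add]

theorem mem_DD (z : E5) : z ∈ DD ↔ cc z = 0 := by
  have h : cc z = 0 ↔ (∀ i, ⌊z.1 i⌋ = 0) ∧ ⌊z.2.2⌋ = 0 := by
    rw [Prod.ext_iff, funext_iff]
    rfl
  rw [h]
  simp only [DD, mem_ofPred_eq, Int.floor_eq_zero_iff]

theorem fr_eq (z : E5) : fr z = tr (-(cc z).1) (-(cc z).2) z := by
  refine Prod.ext ?_ (Prod.ext ?_ ?_)
  · funext i
    simp only [fr, tr, cc, Pi.add_apply, Pi.neg_apply, Int.cast_neg, Int.fract]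
    ring
  · rfl
  · simp only [fr, tr, cc, Int.cast_neg, Int.fract]
    ring

theorem fr_of_DD {z : E5} (h : z ∈ DD) : fr z = z := by
  rw [fr_eq, (mem_DD z).1 h]
  refine Prod.ext ?_ (Prod.ext ?_ ?_)
  · funext i
    simp [tr]
  · rfl
  · simp [tr]

theorem fr_tr (k : Fin (1 + 1) → ℤ) (l : ℤ) (z : E5) : fr (tr k l z) = fr z := by
  refine Prod.ext ?_ (Prod.ext ?_ ?_)
  · funext i
    simp only [fr, tr, Pi.add_apply, Int.fract_add_intCast]
  · rfl
  · simp only [fr, tr, Int.fract_add_intCast]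

theorem meas_fr : Measurable fr := by
  unfold fr
  refine Measurable.prodMk ?_ (Measurable.prodMk ?_ ?_)
  · refine measurable_pi_lambda _ fun i => ?_
    exact measurable_fract.comp ((measurable_pi_apply i).comp measurable_fst)
  · exact measurable_fst.comp measurable_snd
  · exact measurable_fract.comp (measurable_snd.comp measurable_snd)

theorem meas_cc (j : J) : MeasurableSet (cc ⁻¹' {j}) := by
  have h : cc ⁻¹' {j} = (⋂ i, {z : E5 | ⌊z.1 i⌋ = j.1 i}) ∩ {z : E5 | ⌊z.2.2⌋ = j.2} := by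
    ext z
    simp only [mem_preimage, mem_singleton_iff, mem_inter_iff, mem_iInter, mem_ofPred_eq, cc,
      Prod.ext_iff, funext_iff]
  rw [h]
  refine MeasurableSet.inter (MeasurableSet.iInter fun i => ?_) ?_
  · exact (Int.measurable_floor.comp ((measurable_pi_apply i).comp measurable_fst))
      (measurableSet_singleton (j.1 i))
  · exact (Int.measurable_floor.comp (measurable_snd.comp measurable_snd))
      (measurableSet_singleton j.2)

theorem meas_DD : MeasurableSet DD := by
  have h : DD = cc ⁻¹' {0} := by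
    ext z
    rw [mem_DD]
    rfl
  rw [h]
  exact meas_cc 0

theorem mp_tr (k : Fin (1 + 1) → ℤ) (l : ℤ) :
    MeasurePreserving (tr k l) (volume : Measure E5) volume := by
  have h : tr k l = Prod.map (fun x : P2 => x + fun i => (k i : ℝ))
      (Prod.map (id : P2 → P2) fun t : ℝ => t + (l : ℝ)) := rfl
  rw [h]
  exact (measurePreserving_add_right volume _).prod
    ((MeasurePreserving.id volume).prod (measurePreserving_add_right volume _))

theorem part (B : Set E5) (hB : MeasurableSet B) (f : E5 → J)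
    (hf : ∀ j, MeasurableSet (f ⁻¹' {j})) :
    volume B = ∑' j, volume (B ∩ f ⁻¹' {j}) := by
  rw [← measure_iUnion]
  · rw [← inter_iUnion, ← preimage_iUnion, iUnion_of_singleton, preimage_univ, inter_univ]
  · intro i j hij
    refine Set.disjoint_left.2 fun z h1 h2 => hij ?_
    exact (h1.2 : f z = i).symm.trans h2.2
  · exact fun j => hB.inter (hf j)

end MPL

open MPL in
theorem p_MP : S_MP := by
  intro G hG hc
  have hGm : Measurable G := hG.measurable
  have hTm : Measurable fun z => fr (G z) := meas_fr.comp hGm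
  refine ⟨hTm, ?_⟩
  refine Measure.ext fun S hS => ?_
  rw [Measure.map_apply hTm hS, Measure.restrict_apply (hTm hS), Measure.restrict_apply hS]
  -- the invariant set
  have hA : MeasurableSet ((fun z => fr (G z)) ⁻¹' S) := hTm hS
  set A : Set E5 := (fun z => fr (G z)) ⁻¹' S with hAdef
  have hAinv : ∀ k l z, tr k l z ∈ A ↔ z ∈ A := by
    intro k l z
    rw [hAdef, mem_preimage, mem_preimage, hc, fr_tr]
  have hcG : ∀ j, MeasurableSet ((fun z => cc (G z)) ⁻¹' {j}) := fun j => hGm (meas_cc j)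
  have h1 := part (A ∩ DD) (hA.inter meas_DD) (fun z => cc (G z)) hcG
  have h2 := part (A ∩ G ⁻¹' DD) (hA.inter (hGm meas_DD)) cc meas_cc
  have h3 : ∀ j : J, volume (A ∩ DD ∩ (fun z => cc (G z)) ⁻¹' {j}) =
      volume (A ∩ G ⁻¹' DD ∩ cc ⁻¹' {-j}) := by
    intro j
    rw [← (mp_tr (-j.1) (-j.2)).measure_preimage
      ((hA.inter (hGm meas_DD)).inter (meas_cc _)).nullMeasurableSet]
    refine congrArg volume ?_
    ext z
    simp only [mem_inter_iff, mem_preimage, mem_singleton_iff, hAinv, hc, mem_DD, cc_tr]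
    have e : ((-j.1, -j.2) : J) = -j := rfl
    rw [e]
    constructor
    · rintro ⟨⟨a1, a2⟩, a3⟩
      refine ⟨⟨a1, ?_⟩, ?_⟩
      · rw [a3, add_neg_cancel]
      · rw [a2, zero_add]
    · rintro ⟨⟨a1, a2⟩, a3⟩
      refine ⟨⟨a1, ?_⟩, ?_⟩
      · exact add_eq_right.1 a3
      · exact add_neg_eq_zero.1 a2
  have h4 : volume (A ∩ DD) = volume (A ∩ G ⁻¹' DD) := by
    rw [h1, h2, tsum_congr h3]
    exact (Equiv.neg J).tsum_eq fun j => volume (A ∩ G ⁻¹' DD ∩ cc ⁻¹' {j})
  rw [h4]
  have h5 : A ∩ G ⁻¹' DD = G ⁻¹' (S ∩ DD) := by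
    ext z
    simp only [hAdef, mem_inter_iff, mem_preimage]
    constructor
    · rintro ⟨a1, a2⟩
      exact ⟨by rwa [fr_of_DD a2] at a1, a2⟩
    · rintro ⟨a1, a2⟩
      exact ⟨by rwa [fr_of_DD a2], a2⟩
  rw [h5]
  exact hG.measure_preimage (hS.inter meas_DD).nullMeasurableSet

end Pool.Agent.H244.RC
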