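import Pool.Agent.H244.RC.Stm

/-!
# [OSC] of project RC (helper244), written by helper553
-/

set_option autoImplicit false

namespace Pool.Agent.H244.RC

open Set Filter Topology MeasureTheory

namespace OSCL

theorem gen (S C : ℝ → ℝ) (hS : ∀ y, HasDerivAt S (C y) y) (hC : Continuous C)
    (hS1 : ∀ y, |S y| ≤ 1) (c c' θ θ' θ'' : ℝ → ℝ) (M B Λ : ℝ) (hΛ : 0 < Λ) (hc' : Continuous c')
    (hθ'' : Continuous θ'') (dc : ∀ r, HasDerivAt c (c' r) r) (dθ : ∀ r, HasDerivAt θ (θ' r) r)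
    (dθ' : ∀ r, HasDerivAt θ' (θ'' r) r)
    (hb : ∀ r ∈ Icc (0 : ℝ) 1, |c r| ≤ M ∧ |c' r| ≤ M ∧ |θ'' r| ≤ B ∧ Λ ≤ |θ' r|) :
    |∫ r in (0 : ℝ)..1, c r * C (θ r)| ≤ M * (3 / Λ + B / Λ ^ 2) := by
  have cc : Continuous c := continuous_iff_continuousAt.2 fun r => (dc r).continuousAt
  have cθ : Continuous θ := continuous_iff_continuousAt.2 fun r => (dθ r).continuousAt
  have cθ' : Continuous θ' := continuous_iff_continuousAt.2 fun r => (dθ' r).continuousAt
  have h01 : uIcc (0 : ℝ) 1 = Icc 0 1 := uIcc_of_le zero_le_one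
  have hne : ∀ r ∈ Icc (0 : ℝ) 1, θ' r ≠ 0 := by
    intro r hr h0
    have h1 := (hb r hr).2.2.2
    rw [h0, abs_zero] at h1
    linarith
  have hM : 0 ≤ M := (abs_nonneg _).trans (hb 0 ⟨le_rfl, zero_le_one⟩).1
  have hB : 0 ≤ B := (abs_nonneg _).trans (hb 0 ⟨le_rfl, zero_le_one⟩).2.2.1
  have hu : ∀ r ∈ uIcc (0 : ℝ) 1, HasDerivAt (fun r => c r / θ' r)
      ((c' r * θ' r - c r * θ'' r) / θ' r ^ 2) r := by
    intro r hr
    rw [h01] at hr
    exact (dc r).div (dθ' r) (hne r hr)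
  have hv : ∀ r ∈ uIcc (0 : ℝ) 1, HasDerivAt (fun r => S (θ r)) (C (θ r) * θ' r) r :=
    fun r _ => (hS (θ r)).comp r (dθ r)
  have iu : IntervalIntegrable (fun r => (c' r * θ' r - c r * θ'' r) / θ' r ^ 2) volume 0 1 := by
    apply ContinuousOn.intervalIntegrable
    rw [h01]
    exact (((hc'.mul cθ').sub (cc.mul hθ'')).continuousOn).div ((cθ'.pow 2).continuousOn)
      fun r hr => pow_ne_zero 2 (hne r hr)
  have iv : IntervalIntegrable (fun r => C (θ r) * θ' r) volume 0 1 :=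
    ((hC.comp cθ).mul cθ').intervalIntegrable 0 1
  have h := intervalIntegral.integral_mul_deriv_eq_deriv_mul hu hv iu iv
  have e : ∫ r in (0 : ℝ)..1, c r * C (θ r) = ∫ r in (0 : ℝ)..1, c r / θ' r * (C (θ r) * θ' r) := by
    refine intervalIntegral.integral_congr fun r hr => ?_
    rw [h01] at hr
    have h1 := hne r hr
    show c r * C (θ r) = c r / θ' r * (C (θ r) * θ' r)
    field_simp
  rw [e, h]
  have hw : ∀ r ∈ Icc (0 : ℝ) 1, |c r / θ' r * S (θ r)| ≤ M / Λ := by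
    intro r hr
    obtain ⟨h1, -, -, h4⟩ := hb r hr
    rw [abs_mul, abs_div]
    calc |c r| / |θ' r| * |S (θ r)| ≤ |c r| / |θ' r| * 1 :=
          mul_le_mul_of_nonneg_left (hS1 _) (by positivity)
      _ = |c r| / |θ' r| := mul_one _
      _ ≤ M / Λ := div_le_div₀ hM h1 hΛ h4
  have hint : |∫ r in (0 : ℝ)..1, (c' r * θ' r - c r * θ'' r) / θ' r ^ 2 * S (θ r)| ≤
      M / Λ + M * B / Λ ^ 2 := by
    have h2 := intervalIntegral.norm_integral_le_of_norm_le_const (a := (0 : ℝ)) (b := 1)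
      (f := fun r => (c' r * θ' r - c r * θ'' r) / θ' r ^ 2 * S (θ r)) (C := M / Λ + M * B / Λ ^ 2)
      (fun r hr => by
        rw [uIoc_of_le zero_le_one] at hr
        have hr' : r ∈ Icc (0 : ℝ) 1 := ⟨hr.1.le, hr.2⟩
        obtain ⟨h1, h3, h5, h4⟩ := hb r hr'
        have h0 := hne r hr'
        have hp : 0 < |θ' r| := abs_pos.2 h0
        rw [Real.norm_eq_abs, abs_mul]
        have e2 : (c' r * θ' r - c r * θ'' r) / θ' r ^ 2 = c' r / θ' r - c r * θ'' r / θ' r ^ 2 := by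
          field_simp
        have h6 : |(c' r * θ' r - c r * θ'' r) / θ' r ^ 2| ≤ M / Λ + M * B / Λ ^ 2 := by
          rw [e2]
          refine (abs_sub _ _).trans (add_le_add ?_ ?_)
          · rw [abs_div]
            exact div_le_div₀ hM h3 hΛ h4
          · rw [abs_div, abs_mul, abs_pow]
            refine div_le_div₀ (by positivity) (mul_le_mul h1 h5 (abs_nonneg _) hM)
              (by positivity) (pow_le_pow_left₀ hΛ.le h4 2)
        calc |(c' r * θ' r - c r * θ'' r) / θ' r ^ 2| * |S (θ r)|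
            ≤ (M / Λ + M * B / Λ ^ 2) * 1 :=
              mul_le_mul h6 (hS1 _) (abs_nonneg _) (by positivity)
          _ = M / Λ + M * B / Λ ^ 2 := mul_one _)
    simpa using h2
  have h7 := hw 1 ⟨zero_le_one, le_rfl⟩
  have h8 := hw 0 ⟨le_rfl, zero_le_one⟩
  have h9 : |c 1 / θ' 1 * S (θ 1) - c 0 / θ' 0 * S (θ 0) -
      ∫ r in (0 : ℝ)..1, (c' r * θ' r - c r * θ'' r) / θ' r ^ 2 * S (θ r)| ≤
      M / Λ + M / Λ + (M / Λ + M * B / Λ ^ 2) :=
    (abs_sub _ _).trans (add_le_add ((abs_sub _ _).trans (add_le_add h7 h8)) hint)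
  refine h9.trans (le_of_eq ?_)
  ring

end OSCL

theorem p_OSC : S_OSC := by
  intro c c' θ θ' θ'' M B Λ hΛ hc' hθ'' dc dθ dθ' hb
  refine ⟨OSCL.gen Real.sin Real.cos Real.hasDerivAt_sin Real.continuous_cos Real.abs_sin_le_one
    c c' θ θ' θ'' M B Λ hΛ hc' hθ'' dc dθ dθ' hb, ?_⟩
  refine OSCL.gen (fun y => - Real.cos y) Real.sin (fun y => ?_) Real.continuous_sin (fun y => ?_)
    c c' θ θ' θ'' M B Λ hΛ hc' hθ'' dc dθ dθ' hb
  · have h := (Real.hasDerivAt_cos y).fun_neg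
    rw [neg_neg] at h
    exact h
  · rw [abs_neg]
    exact Real.abs_cos_le_one y

end Pool.Agent.H244.RC
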