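import Pool.Agent.H244.RC.Stm

/-!
# QUAD and SUB: the kinetic energy, sublevel sets of the energy
-/

set_option autoImplicit false

namespace Pool.Agent.H244.RC

open Set Filter Topology MeasureTheory
open Pool.Agent.Helper6K9.ES (Q E Per Sm dX dT Small)
open scoped NNReal ENNReal

namespace QUADL

/-- the quadratic form -/
noncomputable def q (A : Matrix (Fin (1 + 1)) (Fin (1 + 1)) ℝ) (v : P2) : ℝ :=
  ∑ i, ∑ j, A i j * v i * v j

lemma q_cont (A : Matrix (Fin (1 + 1)) (Fin (1 + 1)) ℝ) : Continuous (q A) := by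
  unfold q
  fun_prop

lemma q_smul (A : Matrix (Fin (1 + 1)) (Fin (1 + 1)) ℝ) (s : ℝ) (v : P2) :
    q A (s • v) = s ^ 2 * q A v := by
  unfold q
  rw [Finset.mul_sum]
  refine Finset.sum_congr rfl fun i _ => ?_
  rw [Finset.mul_sum]
  refine Finset.sum_congr rfl fun j _ => ?_
  simp only [Pi.smul_apply, smul_eq_mul]
  ring

lemma q_pos {A : Matrix (Fin (1 + 1)) (Fin (1 + 1)) ℝ} (hA : A.PosDef) {v : P2} (hv : v ≠ 0) :
    0 < q A v := by
  have h := hA.dotProduct_mulVec_pos hv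
  have e : star v ⬝ᵥ (A.mulVec v) = q A v := by
    unfold q
    simp only [dotProduct, Matrix.mulVec, Pi.star_apply, star_trivial]
    refine Finset.sum_congr rfl fun i _ => ?_
    rw [Finset.mul_sum]
    refine Finset.sum_congr rfl fun j _ => ?_
    ring
  rwa [e] at h

lemma q_lower {A : Matrix (Fin (1 + 1)) (Fin (1 + 1)) ℝ} (hA : A.PosDef) :
    ∃ m : ℝ, 0 < m ∧ ∀ v : P2, m * ‖v‖ ^ 2 ≤ q A v := by
  have hne : (Metric.sphere (0 : P2) 1).Nonempty := by
    refine ⟨fun _ => 1, ?_⟩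
    rw [mem_sphere_zero_iff_norm]
    refine le_antisymm ?_ ?_
    · rw [pi_norm_le_iff_of_nonneg zero_le_one]
      intro i
      simp
    · simp
  obtain ⟨v0, hv0, hmin⟩ := (isCompact_sphere (0 : P2) 1).exists_isMinOn hne
    (q_cont A).continuousOn
  have hv0' : v0 ≠ 0 := by
    intro h
    rw [mem_sphere_zero_iff_norm, h, norm_zero] at hv0
    exact zero_ne_one hv0
  refine ⟨q A v0, q_pos hA hv0', fun v => ?_⟩
  by_cases hv : v = 0
  · subst hv
    unfold q
    simp
  · have hn : 0 < ‖v‖ := norm_pos_iff.2 hv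
    have h1 : ‖v‖⁻¹ • v ∈ Metric.sphere (0 : P2) 1 := by
      rw [mem_sphere_zero_iff_norm, norm_smul, norm_inv, norm_norm, inv_mul_cancel₀ hn.ne']
    have h2 : q A v0 ≤ q A (‖v‖⁻¹ • v) := hmin h1
    have h3 : q A v = ‖v‖ ^ 2 * q A (‖v‖⁻¹ • v) := by
      rw [← q_smul, smul_smul, mul_inv_cancel₀ hn.ne', one_smul]
    rw [h3, mul_comm]
    exact mul_le_mul_of_nonneg_left h2 (by positivity)

end QUADL

theorem p_QUAD : S_QUAD := by
  intro A hA
  obtain ⟨m, hm, h⟩ := QUADL.q_lower hA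
  refine ⟨m / 2, by positivity, fun v i => ?_⟩
  have h1 := h v
  have h2 : v i ^ 2 ≤ ‖v‖ ^ 2 := by
    rw [← sq_abs, ← Real.norm_eq_abs]
    exact pow_le_pow_left₀ (norm_nonneg _) (norm_le_pi_norm v i) 2
  have h3 : m * v i ^ 2 ≤ m * ‖v‖ ^ 2 := mul_le_mul_of_nonneg_left h2 hm.le
  have h4 : QUADL.q A v = ∑ i, ∑ j, A i j * v i * v j := rfl
  rw [← h4]
  linarith

theorem p_SUB (hB : S_BALL) : S_SUB := by
  intro A f hA hf hper
  have hcont : Continuous (HH A f) := by
    unfold HH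
    have := hf.continuous
    fun_prop
  refine ⟨hcont.measurable, fun z => ?_, fun C => ?_⟩
  · unfold HH fr
    simp only
    have h := hper (fun i => Int.fract (z.1 i), Int.fract z.2.2) (fun i => ⌊z.1 i⌋) ⌊z.2.2⌋
    have e : ((fun i => Int.fract (z.1 i)) + (fun i => ((⌊z.1 i⌋ : ℤ) : ℝ)),
        Int.fract z.2.2 + ((⌊z.2.2⌋ : ℤ) : ℝ)) = (z.1, z.2.2) := by
      refine Prod.ext ?_ (Int.fract_add_floor _)
      funext i
      exact Int.fract_add_floor _
    simp only at h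
    rw [e] at h
    rw [h]
  · obtain ⟨M, hM⟩ := Pool.Agent.Helper6K9.ES.OdeL.bounded_of_per f hf.continuous hper
    obtain ⟨a, ha, hq⟩ := p_QUAD A hA
    have hS : MeasurableSet {z | HH A f z < C} := measurableSet_lt hcont.measurable measurable_const
    rw [Measure.restrict_apply hS]
    have hsub : {z | HH A f z < C} ∩ DD ⊆
        {z : E5 | z ∈ DD ∧ ∀ i, |z.2.1 i| ≤ √((C + M) / a)} := by
      rintro z ⟨hz1, hz2⟩
      refine ⟨hz2, fun i => Real.abs_le_sqrt ?_⟩
      rw [le_div_iff₀ ha, mul_comm]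
      have h1 := hq z.2.1 i
      have h2 : HH A f z < C := hz1
      unfold HH at h2
      have h3 := hM (z.1, z.2.2)
      rw [Real.norm_eq_abs] at h3
      have h4 := (abs_le.1 h3).2
      linarith
    exact (measure_mono hsub).trans_lt ((hB.2 _ (Real.sqrt_nonneg _)).trans_lt ENNReal.ofReal_lt_top)

end Pool.Agent.H244.RC
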