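import Pool.Agent.H244.RC.Stm

set_option autoImplicit false

namespace Pool.Agent.H244.RC

open Set Filter Topology MeasureTheory
open scoped NNReal ENNReal

namespace RECL

/-- the translation vector -/
def tv (k : Fin (1 + 1) → ℤ) (l : ℤ) : E5 := ((fun i => (k i : ℝ)), 0, (l : ℝ))

theorem tr_eq (k : Fin (1 + 1) → ℤ) (l : ℤ) (z : E5) : tr k l z = z + tv k l := by
  unfold tr tv
  refine Prod.ext ?_ (Prod.ext ?_ ?_)
  · rfl
  · simp
  · rfl

theorem tv_add (k k' : Fin (1 + 1) → ℤ) (l l' : ℤ) : tv (k + k') (l + l') = tv k l + tv k' l' := by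
  unfold tv
  refine Prod.ext ?_ (Prod.ext ?_ ?_)
  · funext i
    simp
  · simp
  · simp

theorem tv_zero : tv 0 0 = 0 := by
  unfold tv
  refine Prod.ext ?_ (Prod.ext ?_ ?_)
  · funext i
    simp
  · simp
  · simp

theorem tr_tr (k k' : Fin (1 + 1) → ℤ) (l l' : ℤ) (z : E5) :
    tr k' l' (tr k l z) = tr (k + k') (l + l') z := by
  rw [tr_eq, tr_eq, tr_eq, tv_add, add_assoc]

theorem mp_tr (k : Fin (1 + 1) → ℤ) (l : ℤ) :
    MeasurePreserving (tr k l) (volume : Measure E5) volume := by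
  have h1 : MeasurePreserving (fun x : P2 => x + fun i => (k i : ℝ)) volume volume :=
    measurePreserving_add_right volume _
  have h2 : MeasurePreserving (fun x : ℝ => x + (l : ℝ)) volume volume :=
    measurePreserving_add_right volume _
  have h3 := (MeasurePreserving.id (volume : Measure P2)).prod h2
  exact h1.prod h3

theorem fr_eq (z : E5) : fr z = tr (fun i => -⌊z.1 i⌋) (-⌊z.2.2⌋) z := by
  unfold fr tr
  refine Prod.ext ?_ (Prod.ext ?_ ?_)
  · funext i
    simp only [Pi.add_apply, Int.cast_neg]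
    rw [← Int.self_sub_floor]
    ring
  · rfl
  · simp only [Int.cast_neg]
    rw [← Int.self_sub_floor]
    ring

theorem fr_mem (z : E5) : fr z ∈ DD := by
  refine ⟨fun i => ⟨?_, ?_⟩, ?_, ?_⟩
  · exact Int.fract_nonneg _
  · exact Int.fract_lt_one _
  · exact Int.fract_nonneg _
  · exact Int.fract_lt_one _

variable {G : E5 → E5} (hG : ∀ k l z, G (tr k l z) = tr k l (G z))

include hG

theorem iter_tr (n : ℕ) (k : Fin (1 + 1) → ℤ) (l : ℤ) (z : E5) :
    G^[n] (tr k l z) = tr k l (G^[n] z) := by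
  induction n generalizing z with
  | zero => rfl
  | succ n ih => rw [Function.iterate_succ_apply, hG, ih, ← Function.iterate_succ_apply]

theorem iter_fr (n : ℕ) (z : E5) :
    ∃ k l, (fun z => fr (G z))^[n] z = tr k l (G^[n] z) := by
  induction n with
  | zero => exact ⟨0, 0, by rw [tr_eq, tv_zero, add_zero]; rfl⟩
  | succ n ih =>
    obtain ⟨k, l, h⟩ := ih
    rw [Function.iterate_succ_apply', h, hG, ← Function.iterate_succ_apply' G n z, fr_eq]
    exact ⟨_, _, tr_tr _ _ _ _ _⟩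

end RECL

open RECL

/-- the recurrence property at a point -/
def RECL.PP (G : E5 → E5) (z : E5) : Prop := ∀ ε : ℝ, 0 < ε → ∀ N : ℕ, ∃ n : ℕ, N ≤ n ∧
    ∃ (k : Fin (1 + 1) → ℤ) (l : ℤ), ‖tr k l (G^[n] z) - z‖ < ε

theorem RECL.PP_tr {G : E5 → E5} (hG : ∀ k l z, G (tr k l z) = tr k l (G z))
    (k : Fin (1 + 1) → ℤ) (l : ℤ) (z : E5) (h : PP G (tr k l z)) : PP G z := by
  intro ε hε N
  obtain ⟨n, hn, k', l', h'⟩ := h ε hε N
  refine ⟨n, hn, k', l', ?_⟩
  rw [iter_tr hG, tr_eq, tr_eq, tr_eq] at h'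
  rw [tr_eq]
  have e : G^[n] z + tv k l + tv k' l' - (z + tv k l) = G^[n] z + tv k' l' - z := by abel
  rwa [e] at h'

theorem p_REC : S_REC := by
  intro G hG hC
  have h1 := hC.ae_frequently_mem_of_mem_nhds
  have h2 : ∀ᵐ z ∂(volume.restrict DD), PP G z := by
    filter_upwards [h1] with z hz
    intro ε hε N
    have h3 := hz (Metric.ball z ε) (Metric.ball_mem_nhds z hε)
    obtain ⟨n, hn, h4⟩ := frequently_atTop.1 h3 N
    obtain ⟨k, l, h5⟩ := iter_fr hG n z
    rw [h5, Metric.mem_ball, dist_eq_norm] at h4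
    exact ⟨n, hn, k, l, h4⟩
  have h3 : (volume : Measure E5) ({z | ¬ PP G z} ∩ DD) = 0 := by
    have h4 : (volume.restrict DD) {z | ¬ PP G z} = 0 := h2
    exact le_antisymm ((Measure.le_restrict_apply DD {z | ¬ PP G z}).trans h4.le) bot_le
  have h4 : ∀ (k : Fin (1 + 1) → ℤ) (l : ℤ),
      (volume : Measure E5) (tr k l ⁻¹' ({z | ¬ PP G z} ∩ DD)) = 0 := by
    intro k l
    exact (mp_tr k l).quasiMeasurePreserving.preimage_null h3
  have h5 : (volume : Measure E5) {z | ¬ PP G z} = 0 := by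
    refine measure_mono_null (t := ⋃ (q : (Fin (1 + 1) → ℤ) × ℤ), tr q.1 q.2 ⁻¹' ({z | ¬ PP G z} ∩ DD))
      ?_ (measure_iUnion_null fun q => h4 q.1 q.2)
    intro z hz
    rw [mem_iUnion]
    refine ⟨((fun i => -⌊z.1 i⌋), -⌊z.2.2⌋), ?_, ?_⟩
    · intro h
      exact hz (PP_tr hG _ _ z h)
    · rw [← fr_eq]
      exact fr_mem z
  exact h5

end Pool.Agent.H244.RC
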