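import Pool.Agent.H244.RC.Stm

/-!
# RC REV: reversal of the time
-/

set_option autoImplicit false

namespace Pool.Agent.H244.RC

namespace REVL

open Pool.Agent.Helper6K9.ES (lag dv dx)

theorem lag_rev {n : ℕ} (A : Matrix (Fin n) (Fin n) ℝ) (f : (Fin n → ℝ) × ℝ → ℝ)
    (x w : Fin n → ℝ) (t : ℝ) :
    lag A (fun p => f (p.1, -p.2)) x (-w) t = lag A f x w (-t) := by
  unfold Pool.Agent.Helper6K9.ES.lag
  simp only [Pi.neg_apply, mul_neg, neg_mul, neg_neg]

theorem dx_rev {n : ℕ} (A : Matrix (Fin n) (Fin n) ℝ) (f : (Fin n → ℝ) × ℝ → ℝ) (i : Fin n)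
    (x w : Fin n → ℝ) (t : ℝ) :
    dx (lag A (fun p => f (p.1, -p.2))) i x (-w) t = dx (lag A f) i x w (-t) := by
  unfold Pool.Agent.Helper6K9.ES.dx
  simp only [lag_rev]

theorem dv_rev {n : ℕ} (A : Matrix (Fin n) (Fin n) ℝ) (f : (Fin n → ℝ) × ℝ → ℝ) (i : Fin n)
    (x w : Fin n → ℝ) (t : ℝ) :
    dv (lag A (fun p => f (p.1, -p.2))) i x (-w) t = - dv (lag A f) i x w (-t) := by
  unfold Pool.Agent.Helper6K9.ES.dv
  have e : (fun s => lag A (fun p => f (p.1, -p.2)) x (Function.update (-w) i s) t) =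
      fun s => (fun r => lag A f x (Function.update w i r) (-t)) (-s) := by
    funext s
    have h : Function.update (-w) i s = - Function.update w i (-s) := by
      funext j
      by_cases hj : j = i
      · subst hj
        rw [Function.update_self, Pi.neg_apply, Function.update_self, neg_neg]
      · rw [Function.update_of_ne hj, Pi.neg_apply, Pi.neg_apply, Function.update_of_ne hj]
    rw [h, lag_rev]
  rw [e]
  refine (deriv_comp_neg (fun r => lag A f x (Function.update w i r) (-t)) _).trans ?_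
  rw [Pi.neg_apply, neg_neg]

end REVL

theorem p_REV : S_REV := by
  intro A f _ hf hper
  refine ⟨hf.comp (contDiff_fst.prodMk contDiff_snd.neg), ?_, ?_⟩
  · intro p k l
    have h := hper (p.1, -p.2) k (-l)
    refine Eq.trans ?_ h
    change f (p.1 + (fun i => (k i : ℝ)), -(p.2 + l)) =
      f (p.1 + (fun i => (k i : ℝ)), -p.2 + ((-l : ℤ) : ℝ))
    rw [Int.cast_neg, neg_add]
  · intro γ hγ
    have hd : deriv (fun t => γ (-t)) = fun s => - deriv γ (-s) := by
      funext s
      exact deriv_comp_neg γ s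
    refine ⟨fun t => ?_, fun t i => ?_⟩
    · exact (hγ.1 (-t)).comp t differentiableAt_id.neg
    · have h := hγ.2 (-t) i
      rw [hd]
      simp only [REVL.dv_rev, REVL.dx_rev]
      have h2 := (h.scomp t (hasDerivAt_neg t)).neg
      rw [neg_smul, neg_neg, one_smul] at h2
      exact h2

end Pool.Agent.H244.RC
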