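import Pool.Agent.H244.RC.Stm

set_option autoImplicit false

namespace Pool.Agent.H244.RC

open Set Filter Topology MeasureTheory
open scoped NNReal ENNReal

namespace STRIPL

theorem lin_vol (M : Matrix (Fin 2) (Fin 2) ℝ) (hM : 1 ≤ |M.det|) (Λ R : ℝ) :
    volume {v : Fin 2 → ℝ | |(Matrix.toLin' M v) 0| < Λ ∧ |(Matrix.toLin' M v) 1| ≤ R} ≤
      ENNReal.ofReal (2 * Λ) * ENNReal.ofReal (2 * R) := by
  have hdet : LinearMap.det (Matrix.toLin' M) ≠ 0 := by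
    rw [LinearMap.det_toLin']
    intro h
    rw [h] at hM
    norm_num at hM
  let B : Fin 2 → Set ℝ := ![Ioo (-Λ) Λ, Icc (-R) R]
  have hsub : {v : Fin 2 → ℝ | |(Matrix.toLin' M v) 0| < Λ ∧ |(Matrix.toLin' M v) 1| ≤ R} ⊆
      (Matrix.toLin' M) ⁻¹' (Set.pi univ B) := by
    intro v hv
    rw [mem_preimage, mem_univ_pi]
    intro i
    fin_cases i
    · exact abs_lt.1 hv.1
    · exact abs_le.1 hv.2
  refine (measure_mono hsub).trans ?_
  rw [Measure.addHaar_preimage_linearMap _ hdet, LinearMap.det_toLin', volume_pi_pi,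
    Fin.prod_univ_two]
  have h1 : ENNReal.ofReal |M.det⁻¹| ≤ 1 := by
    rw [abs_inv]
    exact ENNReal.ofReal_le_one.2 (inv_le_one_of_one_le₀ hM)
  have h2 : volume (B 0) = ENNReal.ofReal (2 * Λ) := by
    change volume (Ioo (-Λ) Λ) = _
    rw [Real.volume_Ioo]
    congr 1
    ring
  have h3 : volume (B 1) = ENNReal.ofReal (2 * R) := by
    change volume (Icc (-R) R) = _
    rw [Real.volume_Icc]
    congr 1
    ring
  rw [h2, h3]
  exact (mul_le_mul' h1 le_rfl).trans (le_of_eq (one_mul _))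

theorem strip (k : Fin 2 → ℤ) (hk : k ≠ 0) (Λ R : ℝ) (hR : 0 ≤ R) :
    volume {v : Fin 2 → ℝ | (∀ i, |v i| ≤ R) ∧ |∑ i, (k i : ℝ) * v i| < Λ} ≤
      ENNReal.ofReal (4 * |Λ| * R) := by
  have hfin : ENNReal.ofReal (2 * Λ) * ENNReal.ofReal (2 * R) ≤ ENNReal.ofReal (4 * |Λ| * R) := by
    have h1 : ENNReal.ofReal (2 * Λ) ≤ ENNReal.ofReal (2 * |Λ|) :=
      ENNReal.ofReal_le_ofReal (by linarith [le_abs_self Λ])
    refine (mul_le_mul' h1 le_rfl).trans (le_of_eq ?_)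
    rw [← ENNReal.ofReal_mul (by positivity)]
    congr 1
    ring
  have hint : ∀ n : ℤ, n ≠ 0 → 1 ≤ |(n : ℝ)| := by
    intro n hn
    have : (1 : ℤ) ≤ |n| := Int.one_le_abs hn
    exact_mod_cast this
  by_cases h0 : k 0 = 0
  · have h1 : k 1 ≠ 0 := by
      intro h1
      apply hk
      funext i
      fin_cases i
      · exact h0
      · exact h1
    refine (measure_mono ?_).trans
      ((lin_vol !![(k 0 : ℝ), (k 1 : ℝ); 1, 0] ?_ Λ R).trans hfin)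
    · rintro v ⟨hv1, hv2⟩
      rw [Fin.sum_univ_two] at hv2
      refine ⟨?_, ?_⟩
      · simpa [Matrix.toLin'_apply, Matrix.mulVec, dotProduct, Fin.sum_univ_two] using hv2
      · simpa [Matrix.toLin'_apply, Matrix.mulVec, dotProduct, Fin.sum_univ_two] using hv1 0
    · rw [Matrix.det_fin_two_of]
      have := hint _ h1
      simpa using this
  · refine (measure_mono ?_).trans
      ((lin_vol !![(k 0 : ℝ), (k 1 : ℝ); 0, 1] ?_ Λ R).trans hfin)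
    · rintro v ⟨hv1, hv2⟩
      rw [Fin.sum_univ_two] at hv2
      refine ⟨?_, ?_⟩
      · simpa [Matrix.toLin'_apply, Matrix.mulVec, dotProduct, Fin.sum_univ_two] using hv2
      · simpa [Matrix.toLin'_apply, Matrix.mulVec, dotProduct, Fin.sum_univ_two] using hv1 1
    · rw [Matrix.det_fin_two_of]
      have := hint _ h0
      simpa using this

theorem cube : volume {x : Fin 2 → ℝ | ∀ i, x i ∈ Ico (0 : ℝ) 1} = 1 := by
  have h : {x : Fin 2 → ℝ | ∀ i, x i ∈ Ico (0 : ℝ) 1} = Set.pi univ fun _ => Ico (0 : ℝ) 1 := by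
    ext x
    rw [mem_univ_pi]
    exact Iff.rfl
  rw [h, volume_pi_pi]
  simp

end STRIPL

open STRIPL

theorem p_STRIP : S_STRIP := by
  intro N Λ
  let K : Finset (Fin (1 + 1) → ℤ) :=
    (Fintype.piFinset fun _ => Finset.Icc (-(N : ℤ)) N).filter fun k => k ≠ 0
  refine ⟨K.card * (4 * |Λ|), by positivity, fun R hR => ?_⟩
  have hR0 : 0 ≤ R := by linarith
  have hsub : {z : E5 | z ∈ DD ∧ (∀ i, |z.2.1 i| ≤ R) ∧ ∃ k : Fin (1 + 1) → ℤ, k ≠ 0 ∧
      (∀ i, |k i| ≤ N) ∧ |∑ i, (k i : ℝ) * z.2.1 i| < Λ} ⊆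
      ⋃ k ∈ K, ({x : Fin (1 + 1) → ℝ | ∀ i, x i ∈ Ico (0 : ℝ) 1} ×ˢ
        ({v : Fin (1 + 1) → ℝ | (∀ i, |v i| ≤ R) ∧ |∑ i, (k i : ℝ) * v i| < Λ} ×ˢ
          Ico (0 : ℝ) 1)) := by
    rintro z ⟨⟨hz1, hz2⟩, hz3, k, hk0, hk1, hk2⟩
    have hkK : k ∈ K := Finset.mem_filter.2 ⟨Fintype.mem_piFinset.2 fun i =>
      Finset.mem_Icc.2 (abs_le.1 (hk1 i)), hk0⟩
    exact mem_biUnion hkK ⟨hz1, ⟨hz3, hk2⟩, hz2⟩
  refine (measure_mono hsub).trans ((measure_biUnion_finset_le _ _).trans ?_)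
  have hone : ∀ k ∈ K, volume ({x : Fin (1 + 1) → ℝ | ∀ i, x i ∈ Ico (0 : ℝ) 1} ×ˢ
      ({v : Fin (1 + 1) → ℝ | (∀ i, |v i| ≤ R) ∧ |∑ i, (k i : ℝ) * v i| < Λ} ×ˢ
        Ico (0 : ℝ) 1)) ≤ ENNReal.ofReal (4 * |Λ| * R) := by
    intro k hk
    have hk0 : k ≠ 0 := (Finset.mem_filter.1 hk).2
    rw [Measure.volume_eq_prod, Measure.prod_prod, Measure.volume_eq_prod, Measure.prod_prod]
    have h1 : volume {x : Fin (1 + 1) → ℝ | ∀ i, x i ∈ Ico (0 : ℝ) 1} = 1 := cube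
    have h2 : volume (Ico (0 : ℝ) 1) = 1 := by simp
    rw [h1, h2, one_mul, mul_one]
    exact strip k hk0 Λ R hR0
  refine (Finset.sum_le_card_nsmul K _ _ hone).trans (le_of_eq ?_)
  rw [nsmul_eq_mul, ← ENNReal.ofReal_natCast, ← ENNReal.ofReal_mul (Nat.cast_nonneg _)]
  congr 1
  ring

end Pool.Agent.H244.RC
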