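import Pool.Agent.H244.RC.Stm
import Pool.Graph.R_pool_sql_team_seeded_2aa45f1a.Q205.Liou.Vol

/-!
# Liouville's theorem for the extended phase space (project RC, part VOL; helper707)
-/

set_option autoImplicit false

namespace Pool.Agent.H244.RC

open Set Filter Topology MeasureTheory
open Pool.Agent.Helper6K9.ES (Q E Per Sm dX dT Small)
open Pool.Agent.GR.Flow (IsFlowOf)
open scoped NNReal ENNReal

namespace VOLL

theorem zero_of_const {F : Type} [NormedAddCommGroup F] [NormedSpace ℝ F] {X : E5 → E5}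
    {L : E5 →L[ℝ] E5} {z : E5} (hL : HasFDerivAt X L z) (C : E5 →L[ℝ] F) (v : E5)
    (h : ∀ s : ℝ, C (X (z + s • v)) = C (X z)) : C (L v) = 0 := by
  have h1 : HasDerivAt (fun s : ℝ => X (z + s • v)) (L v) 0 := hL.hasLineDerivAt v
  have h2 : HasDerivAt (fun s : ℝ => C (X (z + s • v))) (C (L v)) 0 :=
    C.hasFDerivAt.comp_hasDerivAt 0 h1
  have h3 : (fun s : ℝ => C (X (z + s • v))) = fun _ => C (X z) := funext h
  rw [h3] at h2
  exact h2.unique (hasDerivAt_const 0 _)

theorem trace_eq (L : E5 →ₗ[ℝ] E5) : LinearMap.trace ℝ E5 L =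
    (∑ i : Fin (1 + 1), (L (Pi.single i 1, 0, 0)).1 i) +
      ((∑ i : Fin (1 + 1), (L (0, Pi.single i 1, 0)).2.1 i) + (L (0, 0, 1)).2.2) := by
  classical
  rw [LinearMap.trace_eq_matrix_trace ℝ ((Pi.basisFun ℝ (Fin (1 + 1))).prod
    ((Pi.basisFun ℝ (Fin (1 + 1))).prod (Module.Basis.singleton Unit ℝ))) L]
  simp only [Matrix.trace, Matrix.diag, LinearMap.toMatrix_apply, Fintype.sum_sum_type]
  congr 1
  · refine Finset.sum_congr rfl fun i _ => ?_
    simp [Module.Basis.prod_apply]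
    rfl
  · congr 1
    · refine Finset.sum_congr rfl fun i _ => ?_
      simp [Module.Basis.prod_apply]
    · simp [Module.Basis.prod_apply]

end VOLL

open VOLL

theorem p_VOL : S_VOL := by
  intro A f X K g hF
  have hdiff : ∀ z, HasFDerivAt X (fderiv ℝ X z) z := fun z =>
    (hF.c1.differentiable (by simp) z).hasFDerivAt
  have htr : ∀ z, LinearMap.trace ℝ E5 (fderiv ℝ X z : E5 →ₗ[ℝ] E5) = 0 := by
    intro z
    rw [trace_eq]
    have h1 : ∀ w : P2, (fderiv ℝ X z (w, 0, 0)).1 = 0 := by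
      intro w
      refine zero_of_const (hdiff z) (ContinuousLinearMap.fst ℝ P2 (P2 × ℝ)) (w, 0, 0) fun s => ?_
      rw [hF.eq, hF.eq]
      simp [XX]
    have h2 : ∀ w : P2, (fderiv ℝ X z (0, w, 0)).2.1 = 0 := by
      intro w
      refine zero_of_const (hdiff z) ((ContinuousLinearMap.fst ℝ P2 ℝ).comp
        (ContinuousLinearMap.snd ℝ P2 (P2 × ℝ))) (0, w, 0) fun s => ?_
      rw [hF.eq, hF.eq]
      simp [XX]
    have h3 : (fderiv ℝ X z (0, 0, 1)).2.2 = 0 := by
      refine zero_of_const (hdiff z) ((ContinuousLinearMap.snd ℝ P2 ℝ).comp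
        (ContinuousLinearMap.snd ℝ P2 (P2 × ℝ))) (0, 0, 1) fun s => ?_
      rw [hF.eq, hF.eq]
      simp [XX]
    simp only [ContinuousLinearMap.coe_coe, h1, h2, h3]
    simp
  have hcont : Continuous (g 1) :=
    (Pool.Agent.Q205.Liou.continuous_flow hF.c1 hF.lip hF.flow).comp
      (continuous_const.prodMk continuous_id)
  have : (volume : Measure E5).IsAddHaarMeasure :=
    Measure.prod.instIsAddHaarMeasure (volume : Measure P2) (volume : Measure (P2 × ℝ))
  refine ⟨hcont.measurable, Measure.ext fun S hS => ?_⟩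
  rw [Measure.map_apply hcont.measurable hS]
  have h1 : g 1 ⁻¹' S = g (-1) '' S := by
    rw [Pool.Agent.Q205.Liou.image_flow hF.lip hF.flow, neg_neg]
  rw [h1]
  exact Pool.Agent.Q205.Liou.measure_image hF.c1 hF.lip hF.flow volume hS
    (fun p _ s _ => htr _)

end Pool.Agent.H244.RC
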