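import Pool.Agent.H244.RC.P_CONS
import Pool.Agent.H244.RC.P_FLUX
import Pool.Agent.H244.RC.P_MP
import Pool.Agent.H244.RC.P_REC
import Pool.Agent.H244.RC.P_FLOW
import Pool.Agent.H244.RC.P_VOL
import Pool.Agent.H244.RC.P_EQV
import Pool.Agent.H244.RC.P_ENER
import Pool.Agent.H244.RC.P_OSC
import Pool.Agent.H244.RC.P_GOOD
import Pool.Agent.H244.RC.P_STRIP
import Pool.Agent.H244.RC.P_BALL
import Pool.Agent.H244.RC.P_QUAD
import Pool.Agent.H244.RC.P_AVG
import Pool.Agent.H244.RC.P_ORB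
import Pool.Agent.H244.RC.P_REV
import Pool.Agent.H244.RC.P_MAIN

/-!
# Recurrence in both directions of time and oscillation of the speed (project RC, helper244)
-/

set_option autoImplicit false

namespace Pool.Agent.H244.RC

open Set Filter Topology MeasureTheory
open Pool.Agent.Helper6K9.ES (Q E Per Sm dX dT Small)
open Pool.Agent.Helper6K9.EG (Orb)
open Pool.Agent.GR.Flow (IsFlowOf)
open scoped NNReal ENNReal

/-- recurrence in both directions of time, modulo the lattice -/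
def Rec2 (γ : ℝ → P2) (t : ℝ) : Prop := ∀ ε : ℝ, 0 < ε → ∀ N : ℕ,
  (∃ n : ℕ, N ≤ n ∧ ∃ k : Fin (1 + 1) → ℤ, ‖γ (t + n) - (fun i => (k i : ℝ)) - γ t‖ < ε ∧
    ‖deriv γ (t + n) - deriv γ t‖ < ε) ∧
  (∃ n : ℕ, N ≤ n ∧ ∃ k : Fin (1 + 1) → ℤ, ‖γ (t - n) - (fun i => (k i : ℝ)) - γ t‖ < ε ∧
    ‖deriv γ (t - n) - deriv γ t‖ < ε)

/-- the speed is smaller than `r` and larger than `r'` at arbitrarily late and arbitrarily early
times -/
def Osc (γ : ℝ → P2) (r r' : ℝ) : Prop := ∀ T : ℝ,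
  (∃ t > T, ‖deriv γ t‖ < r) ∧ (∃ t > T, r' < ‖deriv γ t‖) ∧
  (∃ t < T, ‖deriv γ t‖ < r) ∧ ∃ t < T, r' < ‖deriv γ t‖

/-- almost all and generic points -/
def Typ (P : E5 → Prop) : Prop := (∀ᵐ z : E5, P z) ∧ ∀ᶠ z : E5 in residual E5, P z

lemma Typ.mono {P P' : E5 → Prop} (h : Typ P) (hP : ∀ z, P z → P' z) : Typ P' :=
  ⟨h.1.mono hP, h.2.mono hP⟩

lemma rec2_of {γ : ℝ → P2} {t : ℝ} (h1 : Rec γ t) (h2 : Rec (fun s => γ (-s)) (-t)) :
    Rec2 γ t := by
  intro ε hε N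
  refine ⟨h1 ε hε N, ?_⟩
  obtain ⟨n, hn, k, hk1, hk2⟩ := h2 ε hε N
  refine ⟨n, hn, k, ?_, ?_⟩
  · have e1 : -(-t + (n : ℝ)) = t - n := by ring
    simp only [neg_neg] at hk1
    rwa [e1] at hk1
  · have e1 : -(-t + (n : ℝ)) = t - n := by ring
    rw [deriv_comp_neg, deriv_comp_neg, e1, neg_neg] at hk2
    rw [← norm_neg]
    refine lt_of_eq_of_lt ?_ hk2
    congr 1
    abel

/-- the reversal of the time in phase space -/
def sg (z : E5) : E5 := (z.1, -z.2.1, -z.2.2)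

lemma mp_sg : MeasurePreserving sg volume volume := by
  have h1 : MeasurePreserving (fun v : P2 => -v) volume volume :=
    Measure.measurePreserving_neg volume
  have h2 : MeasurePreserving (fun t : ℝ => -t) volume volume :=
    Measure.measurePreserving_neg volume
  exact (MeasurePreserving.id (volume : Measure P2)).prod (h1.prod h2)

lemma sg_sg (z : E5) : sg (sg z) = z := by simp [sg]

lemma continuous_sg : Continuous sg := by
  unfold sg
  fun_prop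

lemma open_sg : IsOpenMap sg := by
  intro s hs
  have : sg '' s = sg ⁻¹' s := by
    ext z
    constructor
    · rintro ⟨y, hy, rfl⟩
      rwa [mem_preimage, sg_sg]
    · intro h
      exact ⟨sg z, h, sg_sg z⟩
  rw [this]
  exact hs.preimage continuous_sg

lemma Typ.sg {P : E5 → Prop} (h : Typ P) : Typ (fun z => P (sg z)) :=
  ⟨mp_sg.quasiMeasurePreserving.ae h.1, (tendsto_residual_of_isOpenMap continuous_sg open_sg).eventually h.2⟩

lemma Typ.and {P P' : E5 → Prop} (h : Typ P) (h' : Typ P') : Typ (fun z => P z ∧ P' z) :=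
  ⟨h.1.and h'.1, h.2.and h'.2⟩

lemma s_sub : S_SUB := p_SUB p_BALL

lemma s_avg : S_AVG := p_AVG (p_GOOD p_OSC) p_STRIP p_BALL p_QUAD p_ENER s_sub

theorem s_main : S_MAIN :=
  p_MAIN p_CONS p_FLUX p_MP p_REC p_FLOW p_VOL p_EQV s_avg s_sub p_ORB

/-- almost every and the generic orbit is recurrent in both directions of time -/
theorem typ_rec (A : Matrix (Fin (1 + 1)) (Fin (1 + 1)) ℝ) (f : E 1 → ℝ) (hA : A.PosDef)
    (hf : ContDiff ℝ 2 f) (hper : Per f) :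
    Typ (fun z => ∀ γ : ℝ → P2, Orb A f γ → γ z.2.2 = z.1 → deriv γ z.2.2 = z.2.1 →
      Rec2 γ z.2.2) := by
  obtain ⟨hf', hper', hrev⟩ := p_REV A f hA hf hper
  have h1 : Typ (fun z => ∀ γ : ℝ → P2, Orb A f γ → γ z.2.2 = z.1 → deriv γ z.2.2 = z.2.1 →
      Rec γ z.2.2) := s_main A f hA hf hper
  have h2 : Typ (fun z => ∀ γ : ℝ → P2, Orb A (fun p : E 1 => f (p.1, -p.2)) γ → γ z.2.2 = z.1 →
      deriv γ z.2.2 = z.2.1 → Rec γ z.2.2) := s_main A _ hA hf' hper'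
  refine (h1.and h2.sg).mono fun z hz γ hγ e1 e2 => ?_
  refine rec2_of (hz.1 γ hγ e1 e2) (hz.2 _ (hrev γ hγ) ?_ ?_)
  · simp [sg, e1]
  · simp [sg, deriv_comp_neg, e2]

/-- oscillation of the speed -/
theorem osc_of (A : Matrix (Fin (1 + 1)) (Fin (1 + 1)) ℝ) (f : E 1 → ℝ) (hA : A.PosDef)
    (hf : ContDiff ℝ 2 f) (hper : Per f) (γ₀ : ℝ → P2) (h₀ : Orb A f γ₀) (a b r r' : ℝ)
    (ha : ‖deriv γ₀ a‖ < r) (hb : r' < ‖deriv γ₀ b‖) :
    ∃ U : Set E5, IsOpen U ∧ (γ₀ a, deriv γ₀ a, a) ∈ U ∧ ∀ z ∈ U, ∀ γ : ℝ → P2, Orb A f γ →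
      γ z.2.2 = z.1 → deriv γ z.2.2 = z.2.1 → Rec2 γ z.2.2 → Osc γ r r' := by
  obtain ⟨X, K, g, hg⟩ := p_FLOW A f hA hf hper
  obtain ⟨heqv, -, -⟩ := p_EQV A f X K g hg
  have horb := (p_ORB A f X K g hg).1
  have hcont : Continuous (g (b - a)) :=
    (Pool.Agent.Q205.Liou.continuous_flow hg.c1 hg.lip hg.flow).comp
      (Continuous.prodMk_right (b - a))
  set U : Set E5 := {z | ‖z.2.1‖ < r} ∩ {z | r' < ‖(g (b - a) z).2.1‖} with hU
  have hUo : IsOpen U := by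
    refine (isOpen_lt (by fun_prop) continuous_const).inter (isOpen_lt continuous_const ?_)
    exact (continuous_fst.comp (continuous_snd.comp hcont)).norm
  refine ⟨U, hUo, ⟨ha, ?_⟩, ?_⟩
  · show r' < ‖(g (b - a) (γ₀ a, deriv γ₀ a, a)).2.1‖
    rw [horb γ₀ h₀ a (b - a)]
    simpa using hb
  intro z hz γ hγ e1 e2 hrec T
  obtain ⟨δ, hδ, hball⟩ := Metric.isOpen_iff.1 hUo z hz
  -- the times close to a return time
  have key : ∀ (m : ℤ) (k : Fin (1 + 1) → ℤ), ‖γ (z.2.2 + m) - (fun i => (k i : ℝ)) - γ z.2.2‖ < δ →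
      ‖deriv γ (z.2.2 + m) - deriv γ z.2.2‖ < δ →
      ‖deriv γ (z.2.2 + m)‖ < r ∧ r' < ‖deriv γ (z.2.2 + m + (b - a))‖ := by
    intro m k hk1 hk2
    have hw : tr (-k) (-m) (γ (z.2.2 + m), deriv γ (z.2.2 + m), z.2.2 + m) ∈ U := by
      apply hball
      rw [Metric.mem_ball, dist_eq_norm, Prod.norm_def, Prod.norm_def]
      refine max_lt ?_ (max_lt ?_ ?_)
      · refine lt_of_eq_of_lt ?_ hk1
        congr 1
        ext i
        simp [tr, e1, sub_eq_add_neg]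
      · refine lt_of_eq_of_lt ?_ hk2
        congr 1
        ext i
        simp [tr, e2]
      · simpa [tr] using hδ
    refine ⟨hw.1, ?_⟩
    have h2 := hw.2
    simp only [mem_setOf_eq] at h2
    rw [heqv, horb γ hγ] at h2
    exact h2
  obtain ⟨N, hN⟩ := exists_nat_gt (|T| + |z.2.2| + |b - a|)
  have hT := neg_abs_le T
  have hT' := le_abs_self T
  have hz1 := neg_abs_le z.2.2
  have hz2 := le_abs_self z.2.2
  have hs1 := neg_abs_le (b - a)
  have hs2 := le_abs_self (b - a)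
  have hs3 := abs_nonneg (b - a)
  obtain ⟨⟨n, hn, k, hk1, hk2⟩, ⟨n', hn', k', hk1', hk2'⟩⟩ := hrec δ hδ N
  have hnr : (N : ℝ) ≤ n := by exact_mod_cast hn
  have hnr' : (N : ℝ) ≤ n' := by exact_mod_cast hn'
  have h1 := key n k (by simpa using hk1) (by simpa using hk2)
  have h2 := key (-n') k' (by simpa [sub_eq_add_neg] using hk1')
    (by simpa [sub_eq_add_neg] using hk2')
  push_cast at h1 h2
  refine ⟨⟨_, ?_, h1.1⟩, ⟨_, ?_, h1.2⟩, ⟨_, ?_, h2.1⟩, ⟨_, ?_, h2.2⟩⟩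
  · show T < z.2.2 + n
    linarith
  · show T < z.2.2 + n + (b - a)
    linarith
  · show z.2.2 + -n' < T
    linarith
  · show z.2.2 + -n' + (b - a) < T
    linarith

/-- recurrent orbits do not tend to infinity -/
lemma not_escape {γ : ℝ → P2} {t : ℝ} (h : Rec2 γ t) :
    ¬ Tendsto (fun s => ‖deriv γ s‖) atTop atTop ∧
    ¬ Tendsto (fun s => ‖deriv γ s‖) atBot atTop := by
  constructor
  · intro ht
    obtain ⟨T, hT⟩ := (eventually_atTop.1 (ht.eventually_ge_atTop (‖deriv γ t‖ + 1)))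
    obtain ⟨N, hN⟩ := exists_nat_gt (T - t)
    obtain ⟨⟨n, hn, k, -, hk⟩, -⟩ := h 1 one_pos N
    have hnr : (N : ℝ) ≤ n := by exact_mod_cast hn
    have h1 := hT (t + n) (by linarith)
    have h2 := norm_le_norm_add_norm_sub' (deriv γ (t + n)) (deriv γ t)
    linarith
  · intro ht
    obtain ⟨T, hT⟩ := (eventually_atBot.1 (ht.eventually_ge_atTop (‖deriv γ t‖ + 1)))
    obtain ⟨N, hN⟩ := exists_nat_gt (t - T)
    obtain ⟨-, ⟨n, hn, k, -, hk⟩⟩ := h 1 one_pos N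
    have hnr : (N : ℝ) ≤ n := by exact_mod_cast hn
    have h1 := hT (t - n) (by linarith)
    have h2 := norm_le_norm_add_norm_sub' (deriv γ (t - n)) (deriv γ t)
    linarith

end Pool.Agent.H244.RC
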