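import Pool.Agent.H244.RC.Stm

set_option autoImplicit false

namespace Pool.Agent.H244.RC

open Set Filter Topology MeasureTheory
open scoped NNReal ENNReal

namespace CONSL

/-- the first crossing below the level `C` -/
theorem crossing {X : Type} (T : X → X) (H : X → ℝ) (C : ℝ) (x : X) :
    ∀ n : ℕ, C ≤ H x → H (T^[n] x) < C →
      ∃ i, i < n ∧ C ≤ H (T^[i] x) ∧ H (T (T^[i] x)) < C := by
  intro n
  induction n with
  | zero =>
    intro h1 h2
    exact absurd h2 (not_lt.mpr h1)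
  | succ n ih =>
    intro h1 h2
    by_cases h3 : H (T^[n] x) < C
    · obtain ⟨i, hi, h4, h5⟩ := ih h1 h3
      exact ⟨i, Nat.lt_succ_of_lt hi, h4, h5⟩
    · refine ⟨n, Nat.lt_succ_self n, not_lt.mp h3, ?_⟩
      rw [Function.iterate_succ_apply'] at h2
      exact h2

theorem disj {X : Type} (T : X → X) (s : Set X) (hs : ∀ x ∈ s, ∀ m : ℕ, m ≠ 0 → T^[m] x ∉ s) :
    ∀ m n : ℕ, m ≠ n → Disjoint (T^[m] ⁻¹' s) (T^[n] ⁻¹' s) := by
  have key : ∀ m n : ℕ, m < n → Disjoint (T^[m] ⁻¹' s) (T^[n] ⁻¹' s) := by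
    intro m n hmn
    rw [Set.disjoint_left]
    intro x hx hx'
    have h1 : T^[n - m] (T^[m] x) = T^[n] x := by
      rw [← Function.iterate_add_apply]
      congr 1
      rw [Nat.sub_add_cancel hmn.le]
    have h2 : T^[n - m] (T^[m] x) ∉ s := hs _ hx _ (by omega)
    rw [h1] at h2
    exact h2 hx'
  intro m n hmn
  rcases lt_or_gt_of_ne hmn with h | h
  · exact key m n h
  · exact (key n m h).symm

/-- the main estimate -/
theorem est {X : Type} [MeasurableSpace X] (μ : Measure X) (T : X → X) (H : X → ℝ)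
    (hT : MeasurePreserving T μ μ) (hH : Measurable H) (s : Set X) (hsm : MeasurableSet s)
    (hs : ∀ x ∈ s, ∀ m : ℕ, m ≠ 0 → T^[m] x ∉ s) (C : ℝ) (hsC : ∀ x ∈ s, H x < C) (n : ℕ) :
    μ s ≤ μ ((T^[n] ⁻¹' s) ∩ {x | H x < C}) + μ {x | C ≤ H x ∧ H (T x) < C} := by
  have hKm : MeasurableSet {x | C ≤ H x ∧ H (T x) < C} :=
    (measurableSet_le measurable_const hH).inter
      (measurableSet_lt (hH.comp hT.measurable) measurable_const)
  have hAm : ∀ k : ℕ, MeasurableSet (T^[k] ⁻¹' s) := fun k => (hT.iterate k).measurable hsm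
  have h0 : μ s = μ (T^[n] ⁻¹' s) := ((hT.iterate n).measure_preimage hsm.nullMeasurableSet).symm
  have hsub : T^[n] ⁻¹' s ⊆ ((T^[n] ⁻¹' s) ∩ {x | H x < C}) ∪
      ⋃ i ∈ Finset.range n, T^[i] ⁻¹' ({x | C ≤ H x ∧ H (T x) < C} ∩ (T^[n - i] ⁻¹' s)) := by
    intro x hx
    by_cases h1 : H x < C
    · exact Or.inl ⟨hx, h1⟩
    · right
      obtain ⟨i, hi, h4, h5⟩ := crossing T H C x n (not_lt.mp h1) (hsC _ hx)
      rw [Set.mem_iUnion₂]
      refine ⟨i, Finset.mem_range.mpr hi, ⟨h4, h5⟩, ?_⟩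
      show T^[n - i] (T^[i] x) ∈ s
      have h6 : T^[n - i] (T^[i] x) = T^[n] x := by
        rw [← Function.iterate_add_apply]
        congr 1
        rw [Nat.sub_add_cancel hi.le]
      rw [h6]
      exact hx
  rw [h0]
  refine (measure_mono hsub).trans ((measure_union_le _ _).trans ?_)
  refine add_le_add le_rfl ?_
  refine (measure_biUnion_finset_le _ _).trans ?_
  have h2 : ∀ i ∈ Finset.range n,
      μ (T^[i] ⁻¹' ({x | C ≤ H x ∧ H (T x) < C} ∩ (T^[n - i] ⁻¹' s))) =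
        μ ({x | C ≤ H x ∧ H (T x) < C} ∩ (T^[n - i] ⁻¹' s)) := fun i _ =>
    (hT.iterate i).measure_preimage (hKm.inter (hAm (n - i))).nullMeasurableSet
  rw [Finset.sum_congr rfl h2]
  rw [← measure_biUnion_finset]
  · refine measure_mono ?_
    intro x hx
    rw [Set.mem_iUnion₂] at hx
    obtain ⟨i, _, hx⟩ := hx
    exact hx.1
  · intro i hi i' hi' hii
    have hi := Finset.mem_range.mp (Finset.mem_coe.mp hi)
    have hi' := Finset.mem_range.mp (Finset.mem_coe.mp hi')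
    exact (disj T s hs (n - i) (n - i') (by omega)).mono Set.inter_subset_right
      Set.inter_subset_right
  · intro i _
    exact hKm.inter (hAm (n - i))

theorem tend {X : Type} [MeasurableSpace X] (μ : Measure X) (T : X → X) (H : X → ℝ)
    (hT : MeasurePreserving T μ μ) (hH : Measurable H) (s : Set X) (hsm : MeasurableSet s)
    (hs : ∀ x ∈ s, ∀ m : ℕ, m ≠ 0 → T^[m] x ∉ s) (C : ℝ) (hC : μ {x | H x < C} < ⊤) :
    Tendsto (fun n : ℕ => μ ((T^[n] ⁻¹' s) ∩ {x | H x < C})) atTop (𝓝 0) := by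
  have hCm : MeasurableSet {x | H x < C} := measurableSet_lt hH measurable_const
  have hAm : ∀ k : ℕ, MeasurableSet (T^[k] ⁻¹' s) := fun k => (hT.iterate k).measurable hsm
  apply ENNReal.tendsto_atTop_zero_of_tsum_ne_top
  have h1 : ∑' n : ℕ, μ ((T^[n] ⁻¹' s) ∩ {x | H x < C}) =
      μ (⋃ n : ℕ, (T^[n] ⁻¹' s) ∩ {x | H x < C}) := by
    rw [measure_iUnion]
    · intro m n hmn
      exact (disj T s hs m n hmn).mono Set.inter_subset_left Set.inter_subset_left
    · intro n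
      exact (hAm n).inter hCm
  rw [h1]
  refine ne_top_of_le_ne_top hC.ne (measure_mono ?_)
  intro x hx
  rw [Set.mem_iUnion] at hx
  obtain ⟨n, hx⟩ := hx
  exact hx.2

end CONSL

theorem p_CONS : S_CONS := by
  intro X _ μ T H hT hH hfin hK
  refine ⟨hT.quasiMeasurePreserving, ?_⟩
  intro s hsm hs0
  by_contra hcon
  have hs : ∀ x ∈ s, ∀ m : ℕ, m ≠ 0 → T^[m] x ∉ s := by
    intro x hx m hm hmem
    exact hcon ⟨x, hx, m, hm, hmem⟩
  have hj : ∃ j : ℕ, μ (s ∩ {x | H x < (j : ℝ)}) ≠ 0 := by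
    by_contra hall
    push Not at hall
    apply hs0
    have h1 : s ⊆ ⋃ j : ℕ, s ∩ {x | H x < (j : ℝ)} := by
      intro x hx
      obtain ⟨j, hj⟩ := exists_nat_gt (H x)
      exact Set.mem_iUnion.mpr ⟨j, hx, hj⟩
    exact measure_mono_null h1 (measure_iUnion_null hall)
  obtain ⟨j, hj⟩ := hj
  have hm' : MeasurableSet (s ∩ {x | H x < (j : ℝ)}) :=
    hsm.inter (measurableSet_lt hH measurable_const)
  have hs' : ∀ x ∈ s ∩ {x | H x < (j : ℝ)}, ∀ m : ℕ, m ≠ 0 →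
      T^[m] x ∉ s ∩ {x | H x < (j : ℝ)} := by
    intro x hx m hm hmem
    exact hs x hx.1 m hm hmem.1
  apply hj
  have hle : ∀ ε : ℝ≥0∞, 0 < ε → μ (s ∩ {x | H x < (j : ℝ)}) ≤ ε := by
    intro ε hε
    obtain ⟨C, hC, hKC⟩ := hK ε hε (j : ℝ)
    have h1 := CONSL.est μ T H hT hH _ hm' hs' C (fun x hx => lt_of_lt_of_le hx.2 hC)
    have h2 := CONSL.tend μ T H hT hH _ hm' hs' C (hfin C)
    have h3 : Tendsto (fun n : ℕ => μ ((T^[n] ⁻¹' (s ∩ {x | H x < (j : ℝ)})) ∩ {x | H x < C}) +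
        μ {x | C ≤ H x ∧ H (T x) < C}) atTop (𝓝 (0 + μ {x | C ≤ H x ∧ H (T x) < C})) :=
      h2.add tendsto_const_nhds
    have h4 := ge_of_tendsto' h3 h1
    rw [zero_add] at h4
    exact h4.trans hKC
  exact nonpos_iff_eq_zero.mp (le_of_forall_gt_imp_ge_of_dense hle)

end Pool.Agent.H244.RC
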