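import Pool.Agent.H244.RC.Stm

/-!
# [ORB] orbits are the flow lines; existence and uniqueness of orbits (helper746)
-/

set_option autoImplicit false

namespace Pool.Agent.H244.RC

open Set Filter Topology MeasureTheory
open Pool.Agent.Helper6K9.ES (Q E Per Sm dX dT Small)
open Pool.Agent.Helper6K9.E3 (TP)
open Pool.Agent.GR.Flow (IsFlowOf)
open scoped NNReal ENNReal

namespace ORBL

open Pool.Agent.Helper6K9.EG (Orb vf ode_of_orb exists_orb)

/-- the curve of an orbit in the extended phase space -/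
theorem curve_deriv (A : Matrix (Fin (1 + 1)) (Fin (1 + 1)) ℝ) (hA : A.PosDef) (f : E 1 → ℝ)
    (hf : ContDiff ℝ 2 f) (γ : ℝ → P2) (h : Orb A f γ) (t r : ℝ) :
    HasDerivAt (fun r : ℝ => ((γ (t + r), deriv γ (t + r), t + r) : E5))
      (XX A f (γ (t + r), deriv γ (t + r), t + r)) r := by
  have h1 := ode_of_orb A hA f (hf.differentiable (by norm_num)) γ h (t + r)
  have h2 : HasDerivAt (fun r : ℝ => t + r) 1 r := (hasDerivAt_id r).const_add t
  have h3 : HasDerivAt (fun r : ℝ => (γ (t + r), deriv γ (t + r)))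
      (vf A f (t + r) (γ (t + r), deriv γ (t + r))) r := by
    have := h1.scomp r h2
    rw [one_smul] at this
    exact this
  have h4 : HasDerivAt (fun r : ℝ => γ (t + r)) (deriv γ (t + r)) r := h3.fst
  have h5 : HasDerivAt (fun r : ℝ => deriv γ (t + r)) (bb A f (γ (t + r), t + r)) r := by
    have h6 := h3.snd
    have e : bb A f (γ (t + r), t + r) =
        (vf A f (t + r) (γ (t + r), deriv γ (t + r))).2 := by
      funext i
      exact (Pool.Agent.Helper6K9.ES.OdeL.Lam_apply _ _ _ _).symm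
    rw [e]
    exact h6
  exact h4.prodMk (h5.prodMk h2)

theorem flow_eq (A : Matrix (Fin (1 + 1)) (Fin (1 + 1)) ℝ) (f : E 1 → ℝ) (X : C(E5, E5))
    (K : ℝ≥0) (g : ℝ → E5 → E5) (hF : Fl A f X K g) (γ : ℝ → P2) (h : Orb A f γ) (t r : ℝ) :
    g r (γ t, deriv γ t, t) = (γ (t + r), deriv γ (t + r), t + r) := by
  have h1 : (fun r : ℝ => g r (γ t, deriv γ t, t)) =
      fun r : ℝ => ((γ (t + r), deriv γ (t + r), t + r) : E5) := by
    refine ODE_solution_unique_univ (v := fun _ => X) (s := fun _ => univ) (K := K) (t₀ := 0)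
      (fun t => hF.lip.lipschitzOnWith) (fun s => ⟨hF.flow.deriv _ s, trivial⟩)
      (fun s => ⟨?_, trivial⟩) ?_
    · show HasDerivAt _ (X (γ (t + s), deriv γ (t + s), t + s)) s
      rw [hF.eq]
      exact curve_deriv A hF.pos f hF.smooth γ h t s
    · show g 0 (γ t, deriv γ t, t) = (γ (t + 0), deriv γ (t + 0), t + 0)
      rw [hF.flow.zero, add_zero]
  exact congrFun h1 r

end ORBL

open ORBL in
theorem p_ORB : S_ORB := by
  intro A f X K g hF
  refine ⟨fun γ h t r => flow_eq A f X K g hF γ h t r, fun t x v => ?_⟩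
  obtain ⟨γ, h1, h2, h3⟩ :=
    Pool.Agent.Helper6K9.EG.exists_orb A hF.pos f hF.smooth hF.per t x v
  refine ⟨γ, ⟨h1, h2, h3⟩, ?_⟩
  rintro γ' ⟨h1', h2', h3'⟩
  funext s
  have e1 := flow_eq A f X K g hF γ h1 t (s - t)
  have e2 := flow_eq A f X K g hF γ' h1' t (s - t)
  rw [h2', h3'] at e2
  rw [h2, h3, e2] at e1
  have e3 := congrArg Prod.fst e1
  have e4 : t + (s - t) = s := by ring
  rw [e4] at e3
  exact e3

end Pool.Agent.H244.RC
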