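import Pool.Graph.R_seed8.GR.Flow
import Pool.Graph.R_pool_sql_team_seeded_1e53cb71.Helper6K9.EG.Dep
import Pool.Graph.R_pool_sql_team_seeded_1e53cb71.Helper6K9.ES.Mol
import Pool.Graph.R_pool_sql_team_seeded_1e53cb71.Helper41K9.E3.Tri

/-!
# Almost every orbit of a time-periodic mechanical system on a flat two-dimensional torus is recurrent

Definitions and statements of the pieces (project RC of helper244, MP_6acca1_an).
-/

set_option autoImplicit false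

namespace Pool.Agent.H244.RC

open Set Filter Topology MeasureTheory
open Pool.Agent.Helper6K9.ES (Q E Per Sm dX dT Small)
open Pool.Agent.Helper6K9.E3 (TP)
open Pool.Agent.GR.Flow (IsFlowOf)
open scoped NNReal ENNReal

/-- positions -/
abbrev P2 := Fin (1 + 1) → ℝ

/-- the extended phase space: position, velocity, time -/
abbrev E5 := P2 × P2 × ℝ

/-- the force `A⁻¹ ∂f/∂x` -/
noncomputable def bb (A : Matrix (Fin (1 + 1)) (Fin (1 + 1)) ℝ) (f : E 1 → ℝ) (p : E 1) : P2 :=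
  fun i => ∑ k, A⁻¹ i k * dX k f p

/-- the vector field -/
noncomputable def XX (A : Matrix (Fin (1 + 1)) (Fin (1 + 1)) ℝ) (f : E 1 → ℝ) (z : E5) : E5 :=
  (z.2.1, bb A f (z.1, z.2.2), 1)

/-- `g` is the flow of `XX A f` -/
structure Fl (A : Matrix (Fin (1 + 1)) (Fin (1 + 1)) ℝ) (f : E 1 → ℝ) (X : C(E5, E5)) (K : ℝ≥0)
    (g : ℝ → E5 → E5) : Prop where
  pos : A.PosDef
  smooth : ContDiff ℝ 2 f
  per : Per f
  eq : ∀ z, X z = XX A f z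
  c1 : ContDiff ℝ 1 X
  lip : LipschitzWith K X
  flow : IsFlowOf X g

/-- integer translations -/
def tr (k : Fin (1 + 1) → ℤ) (l : ℤ) (z : E5) : E5 :=
  (z.1 + (fun i => (k i : ℝ)), z.2.1, z.2.2 + l)

/-- reduction to the fundamental domain -/
noncomputable def fr (z : E5) : E5 := (fun i => Int.fract (z.1 i), z.2.1, Int.fract z.2.2)

/-- the fundamental domain -/
def DD : Set E5 := {z | (∀ i, z.1 i ∈ Ico (0 : ℝ) 1) ∧ z.2.2 ∈ Ico (0 : ℝ) 1}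

/-- the energy -/
noncomputable def HH (A : Matrix (Fin (1 + 1)) (Fin (1 + 1)) ℝ) (f : E 1 → ℝ) (z : E5) : ℝ :=
  1 / 2 * (∑ i, ∑ j, A i j * z.2.1 i * z.2.1 j) - f (z.1, z.2.2)

/-- [CONS] A criterion for conservativity (no returning points needed, `T` need not be invertible).
Proof. Let `s` be measurable, `μ s ≠ 0`, and suppose `T^[m] x ∉ s` for all `x ∈ s`, `m ≠ 0`. Some
`s' = s ∩ {H < j}` has `μ s' ≠ 0`. The sets `T^[n] ⁻¹' s'` are pairwise disjoint and have the measure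
`μ s' < ⊤`. Let `C ≥ j` and `K = {C ≤ H x, H (T x) < C}`. If `x ∈ T^[n] ⁻¹' s'` and `C ≤ H x` then there
is a first `i < n` with `H (T^[i+1] x) < C`, so `T^[i] x ∈ K ∩ T^[n-i] ⁻¹' s'`. Hence
`μ s' = μ (T^[n] ⁻¹' s') ≤ μ (T^[n] ⁻¹' s' ∩ {H < C}) + ∑_{i<n} μ (K ∩ T^[n-i] ⁻¹' s')`, and the last
sum is at most `μ K` by disjointness, while the first term tends to zero as `n → ∞`, since
`∑_n μ (T^[n] ⁻¹' s' ∩ {H < C}) ≤ μ {H < C} < ⊤`. So `μ s' ≤ μ K ≤ ε` for suitable `C ≥ j`, all `ε`. -/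
def S_CONS : Prop := ∀ (X : Type) [MeasurableSpace X] (μ : Measure X) (T : X → X) (H : X → ℝ),
  MeasurePreserving T μ μ → Measurable H → (∀ C : ℝ, μ {x | H x < C} < ⊤) →
  (∀ ε : ℝ≥0∞, 0 < ε → ∀ C₀ : ℝ, ∃ C, C₀ ≤ C ∧ μ {x | C ≤ H x ∧ H (T x) < C} ≤ ε) →
  Conservative T μ

/-- [FLUX] Proof (Tonelli): `∫⁻ C in Icc 0 N, μ {C ≤ H x, H (T x) < C} ≤ ∫⁻ x in {H (T x) < N},
ofReal |H (T x) - H x| ∂μ ≤ ofReal (ε N)`, because for fixed `x` the set of these `C` is contained in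
`Ioc (H (T x)) (H x)` and empty unless `H (T x) < N`. So some `C ∈ [N/2, N]` has
`μ {...} ≤ ofReal (3 ε)`. -/
def S_FLUX : Prop := ∀ (X : Type) [MeasurableSpace X] (μ : Measure X) [SFinite μ] (T : X → X)
  (H : X → ℝ), Measurable T → Measurable H →
  (∀ ε : ℝ, 0 < ε → ∀ N₀ : ℝ, ∃ N, N₀ ≤ N ∧
    ∫⁻ x in {x | H (T x) < N}, ENNReal.ofReal |H (T x) - H x| ∂μ ≤ ENNReal.ofReal (ε * N)) →
  ∀ ε : ℝ≥0∞, 0 < ε → ∀ C₀ : ℝ, ∃ C, C₀ ≤ C ∧ μ {x | C ≤ H x ∧ H (T x) < C} ≤ ε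

/-- [MP] Reduction modulo the lattice. Proof: for measurable `S`, `{z ∈ DD | fr (G z) ∈ S}` is the
disjoint union over `(k, l)` of `DD ∩ tr k l '' (G ⁻¹' (S ∩ DD))` (as `G` commutes with `tr k l`), whose
volume is that of `tr (-k) (-l) '' DD ∩ G ⁻¹' (S ∩ DD)` (translations preserve the volume), and the
translates of `DD` are a partition of the space; so the sum is
`volume (G ⁻¹' (S ∩ DD)) = volume (S ∩ DD)`. (Perhaps `MeasureTheory.IsAddFundamentalDomain`.) -/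
def S_MP : Prop := ∀ G : E5 → E5, MeasurePreserving G volume volume →
  (∀ k l z, G (tr k l z) = tr k l (G z)) →
  MeasurePreserving (fun z => fr (G z)) (volume.restrict DD) (volume.restrict DD)

/-- [REC] Proof: `Conservative.ae_frequently_mem_of_mem_nhds` on `DD`; the iterates of `fr ∘ G` at `z` are
integer translates of `G^[n] z` (`G` commutes with `tr`); then translate `DD` (countable union). -/
def S_REC : Prop := ∀ G : E5 → E5, (∀ k l z, G (tr k l z) = tr k l (G z)) →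
  Conservative (fun z => fr (G z)) (volume.restrict DD) →
  ∀ᵐ z : E5, ∀ ε : ℝ, 0 < ε → ∀ N : ℕ, ∃ n : ℕ, N ≤ n ∧
    ∃ (k : Fin (1 + 1) → ℤ) (l : ℤ), ‖tr k l (G^[n] z) - z‖ < ε

/-- [FLOW] existence of the flow. Proof: `f` is `C²` and periodic, so `fderiv f` is `C¹` with bounded
derivative (`Pool.Agent.Helper6K9.ES.OdeL.bounded_of_per`, `fderiv_per`, compare
`Pool.Agent.Helper6K9.EG.lip_vf`), hence `XX A f` is `C¹` and globally Lipschitz; global solutions: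
`Haraux.global_ode` as used in `Pool.Agent.Helper6K9.EG.exists_orb`. -/
def S_FLOW : Prop := ∀ (A : Matrix (Fin (1 + 1)) (Fin (1 + 1)) ℝ) (f : E 1 → ℝ), A.PosDef →
  ContDiff ℝ 2 f → Per f → ∃ (X : C(E5, E5)) (K : ℝ≥0) (g : ℝ → E5 → E5), Fl A f X K g

/-- [VOL] Liouville's theorem: `Pool.Agent.Q205.Liou.measure_image` (module
`Pool.Graph.R_pool_sql_team_seeded_2aa45f1a.Q205.Liou.Vol`), the trace of `fderiv X` is zero: the
component `z.2.1` of `X` does not depend on `z.1`, the component `bb` does not depend on `z.2.1`,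
the last one is constant. (With `g (-1)`: preimages under `g 1` are images under `g (-1)`.) -/
def S_VOL : Prop := ∀ (A : Matrix (Fin (1 + 1)) (Fin (1 + 1)) ℝ) (f : E 1 → ℝ) (X : C(E5, E5))
  (K : ℝ≥0) (g : ℝ → E5 → E5), Fl A f X K g → MeasurePreserving (g 1) volume volume

/-- [EQV] equivariance of the flow, by uniqueness of solutions (`X (tr k l z) = X z` as `f` is
periodic; `tr k l` is a translation). And the iterates of `g 1`. -/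
def S_EQV : Prop := ∀ (A : Matrix (Fin (1 + 1)) (Fin (1 + 1)) ℝ) (f : E 1 → ℝ) (X : C(E5, E5))
  (K : ℝ≥0) (g : ℝ → E5 → E5), Fl A f X K g →
  (∀ t k l z, g t (tr k l z) = tr k l (g t z)) ∧ (∀ (n : ℕ) z, (g 1)^[n] z = g n z) ∧
  ∀ t z, (g t z).2.2 = z.2.2 + t

/-- [ENER] the energy along the flow: the derivative of `HH A f (g r z)` is `- dT f`, as
`A (bb A f) = ∂f/∂x` and `A` is symmetric. -/
def S_ENER : Prop := ∀ (A : Matrix (Fin (1 + 1)) (Fin (1 + 1)) ℝ) (f : E 1 → ℝ) (X : C(E5, E5))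
  (K : ℝ≥0) (g : ℝ → E5 → E5), Fl A f X K g →
  ∀ z, HH A f (g 1 z) - HH A f z = - ∫ r in (0 : ℝ)..1, dT f ((g r z).1, (g r z).2.2)

/-- [OSC] an oscillatory integral, by partial integration:
`∫ c cos θ = [c sin θ / θ'] - ∫ sin θ (c' / θ' - c θ'' / θ'^2)`. -/
def S_OSC : Prop := ∀ (c c' θ θ' θ'' : ℝ → ℝ) (M B Λ : ℝ), 0 < Λ → Continuous c' →
  Continuous θ'' → (∀ r, HasDerivAt c (c' r) r) → (∀ r, HasDerivAt θ (θ' r) r) →
  (∀ r, HasDerivAt θ' (θ'' r) r) →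
  (∀ r ∈ Icc (0 : ℝ) 1, |c r| ≤ M ∧ |c' r| ≤ M ∧ |θ'' r| ≤ B ∧ Λ ≤ |θ' r|) →
  |∫ r in (0 : ℝ)..1, c r * Real.cos (θ r)| ≤ M * (3 / Λ + B / Λ ^ 2) ∧
  |∫ r in (0 : ℝ)..1, c r * Real.sin (θ r)| ≤ M * (3 / Λ + B / Λ ^ 2)

/-- [GOOD] a trigonometric polynomial along a fast nonresonant curve. Proof:
`dT F (x, t) = ∑_{k ∈ s} (c_k' (t) cos (2π k·x) + d_k' (t) sin (2π k·x))`. The term `k = 0` has the
integral `c_0 (s + 1) - c_0 (s) = 0`. For `k ≠ 0` use OSC with `θ r = 2π k·(x r)`,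
`θ' = 2π k·(v r)`, `θ'' = 2π k·(a r)`; `|θ' r| ≥ 2π (Λ - 2 N B) ≥ Λ` on `[0, 1]` for large `Λ`; the
functions `c_k'`, `c_k''` are bounded (continuous and periodic). -/
def S_GOOD : Prop := ∀ (N : ℕ) (F : E 1 → ℝ) (B ε : ℝ), 0 < ε →
  TP {k : Fin (1 + 1) → ℤ | ∀ i, |k i| ≤ N} F →
  ∃ Λ : ℝ, ∀ (x v a : ℝ → P2) (s : ℝ), (∀ r, HasDerivAt x (v r) r) →
    (∀ r, HasDerivAt v (a r) r) → Continuous a → (∀ r, ‖a r‖ ≤ B) →
    (∀ k : Fin (1 + 1) → ℤ, k ≠ 0 → (∀ i, |k i| ≤ N) → Λ ≤ |∑ i, (k i : ℝ) * v 0 i|) →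
    |∫ r in (0 : ℝ)..1, dT F (x r, s + r)| ≤ ε

/-- [STRIP] the volume of the resonant strips: for fixed `k ≠ 0`, say `k i ≠ 0`, and fixed `v j`, `j ≠ i`,
the `v i` are in an interval of length at most `2 Λ`; so one strip has volume at most `4 R Λ`. -/
def S_STRIP : Prop := ∀ (N : ℕ) (Λ : ℝ), ∃ C : ℝ, 0 ≤ C ∧ ∀ R : ℝ, 1 ≤ R →
  volume {z : E5 | z ∈ DD ∧ (∀ i, |z.2.1 i| ≤ R) ∧ ∃ k : Fin (1 + 1) → ℤ, k ≠ 0 ∧
    (∀ i, |k i| ≤ N) ∧ |∑ i, (k i : ℝ) * z.2.1 i| < Λ} ≤ ENNReal.ofReal (C * R)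

/-- [BALL] -/
def S_BALL : Prop := MeasurableSet DD ∧ ∀ R : ℝ, 0 ≤ R →
  volume {z : E5 | z ∈ DD ∧ ∀ i, |z.2.1 i| ≤ R} ≤ ENNReal.ofReal (4 * R ^ 2)

/-- [QUAD] the kinetic energy is at least `a v_i^2` -/
def S_QUAD : Prop := ∀ A : Matrix (Fin (1 + 1)) (Fin (1 + 1)) ℝ, A.PosDef → ∃ a : ℝ, 0 < a ∧
  ∀ (v : P2) (i : Fin (1 + 1)), a * v i ^ 2 ≤ 1 / 2 * (∑ i, ∑ j, A i j * v i * v j)

/-- [AVG] the average change of the energy. Proof: let `M` bound `|f|`, `|dT f|` and the force. Choose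
`F` in `TP` with `Small (F - f) η` (`mol`, `tri`), and `Λ` from GOOD. With ENER
`|HH (g 1 z) - HH z| ≤ 2 η` for `z` off the strips, and `≤ M` always. On `{HH (g 1 z) < N}` one has
`HH z < N + M`, so `a v_i^2 ≤ N + 2 M` (QUAD), `|v_i| ≤ R = √((N + 2 M) / a)`. So the integral is at
most `2 η 4 R^2 + M C R` (BALL, STRIP), which is `≤ ε N` for small `η` and large `N`. -/
def S_AVG : Prop := ∀ (A : Matrix (Fin (1 + 1)) (Fin (1 + 1)) ℝ) (f : E 1 → ℝ) (X : C(E5, E5))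
  (K : ℝ≥0) (g : ℝ → E5 → E5), Fl A f X K g →
  ∀ ε : ℝ, 0 < ε → ∀ N₀ : ℝ, ∃ N, N₀ ≤ N ∧
    ∫⁻ z in {z | HH A f (g 1 z) < N}, ENNReal.ofReal |HH A f (g 1 z) - HH A f z|
      ∂(volume.restrict DD) ≤ ENNReal.ofReal (ε * N)

/-- [FIN] sublevel sets of the energy have finite measure in `DD`, the energy is invariant under
`fr` -/
def S_SUB : Prop := ∀ (A : Matrix (Fin (1 + 1)) (Fin (1 + 1)) ℝ) (f : E 1 → ℝ), A.PosDef →
  ContDiff ℝ 2 f → Per f → Measurable (HH A f) ∧ (∀ z, HH A f (fr z) = HH A f z) ∧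
  ∀ C : ℝ, (volume.restrict DD) {z | HH A f z < C} < ⊤

/-- [ORB] orbits and the flow (`Pool.Agent.Helper6K9.EG.ode_of_orb`, `exists_orb`, uniqueness) -/
def S_ORB : Prop := ∀ (A : Matrix (Fin (1 + 1)) (Fin (1 + 1)) ℝ) (f : E 1 → ℝ) (X : C(E5, E5))
  (K : ℝ≥0) (g : ℝ → E5 → E5), Fl A f X K g →
  (∀ γ : ℝ → P2, Pool.Agent.Helper6K9.EG.Orb A f γ → ∀ t r : ℝ,
    g r (γ t, deriv γ t, t) = (γ (t + r), deriv γ (t + r), t + r)) ∧
  ∀ (t : ℝ) (x v : P2), ∃! γ : ℝ → P2, Pool.Agent.Helper6K9.EG.Orb A f γ ∧ γ t = x ∧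
    deriv γ t = v

/-- recurrence in the future modulo the lattice -/
def Rec (γ : ℝ → P2) (t : ℝ) : Prop := ∀ ε : ℝ, 0 < ε → ∀ N : ℕ, ∃ n : ℕ, N ≤ n ∧
  ∃ k : Fin (1 + 1) → ℤ, ‖γ (t + n) - (fun i => (k i : ℝ)) - γ t‖ < ε ∧
    ‖deriv γ (t + n) - deriv γ t‖ < ε

/-- [MAIN] the future. -/
def S_MAIN : Prop := ∀ (A : Matrix (Fin (1 + 1)) (Fin (1 + 1)) ℝ) (f : E 1 → ℝ), A.PosDef →
  ContDiff ℝ 2 f → Per f →
  (∀ᵐ z : E5, ∀ γ : ℝ → P2, Pool.Agent.Helper6K9.EG.Orb A f γ → γ z.2.2 = z.1 →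
    deriv γ z.2.2 = z.2.1 → Rec γ z.2.2) ∧
  ∀ᶠ z : E5 in residual E5, ∀ γ : ℝ → P2, Pool.Agent.Helper6K9.EG.Orb A f γ → γ z.2.2 = z.1 →
    deriv γ z.2.2 = z.2.1 → Rec γ z.2.2

/-- [REV] reversal of the time: `γ (-t)` is an orbit for the potential `f (x, -t)`. -/
def S_REV : Prop := ∀ (A : Matrix (Fin (1 + 1)) (Fin (1 + 1)) ℝ) (f : E 1 → ℝ), A.PosDef →
  ContDiff ℝ 2 f → Per f →
  ContDiff ℝ 2 (fun p : E 1 => f (p.1, -p.2)) ∧ Per (fun p : E 1 => f (p.1, -p.2)) ∧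
  ∀ γ : ℝ → P2, Pool.Agent.Helper6K9.EG.Orb A f γ →
    Pool.Agent.Helper6K9.EG.Orb A (fun p : E 1 => f (p.1, -p.2)) (fun t => γ (-t))

end Pool.Agent.H244.RC
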